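import Mathlib

set_option autoImplicit false

open Finset

namespace Pool.Agent.Dilates

theorem sum_range_two_mul (f : ℕ → ℝ) (n : ℕ) :
    ∑ w ∈ range (2 * n), f w = ∑ j ∈ range n, (f (2 * j) + f (2 * j + 1)) := by
  induction n with
  | zero => simp
  | succ n ih =>
    rw [show 2 * (n + 1) = (2 * n + 1) + 1 from by ring, sum_range_succ, sum_range_succ,
      sum_range_succ, ih]
    ring

/-- The transfer bound: summing a product of weights along the doubling map over the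
`2 ^ R` preimages of a point. -/
theorem transfer (a : ℝ → ℝ) (ha0 : ∀ x, 0 ≤ a x) (hper : Function.Periodic a 1) (C : ℝ)
    (hC : ∀ u, a (u / 2) + a ((u + 1) / 2) ≤ C) (R : ℕ) :
    ∀ u : ℝ, ∑ w ∈ range (2 ^ R), ∏ i ∈ range R, a (2 ^ i * ((u + w) / 2 ^ R)) ≤ C ^ R := by
  have hC0 : 0 ≤ C := le_trans (add_nonneg (ha0 _) (ha0 _)) (hC 0)
  induction R with
  | zero => intro u; simp
  | succ R ih =>
    intro u
    have key : ∀ (v : ℝ) (j : ℕ),
        ∏ i ∈ range (R + 1), a (2 ^ i * ((v + j) / 2 ^ R)) =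
          (∏ i ∈ range R, a (2 ^ i * ((v + j) / 2 ^ R))) * a v := by
      intro v j
      rw [prod_range_succ]
      congr 1
      have h2 : (2 : ℝ) ^ R ≠ 0 := by positivity
      have : (2 : ℝ) ^ R * ((v + j) / 2 ^ R) = v + j * 1 := by
        field_simp
      rw [this]
      exact (hper.nat_mul j) v
    have e0 : ∀ j : ℕ, ∏ i ∈ range (R + 1), a (2 ^ i * ((u + ((2 * j : ℕ) : ℝ)) / 2 ^ (R + 1)))
        = (∏ i ∈ range R, a (2 ^ i * ((u / 2 + j) / 2 ^ R))) * a (u / 2) := by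
      intro j
      rw [← key]
      refine prod_congr rfl fun i _ => ?_
      congr 2
      push_cast
      rw [pow_succ]
      field_simp
    have e1 : ∀ j : ℕ,
        ∏ i ∈ range (R + 1), a (2 ^ i * ((u + ((2 * j + 1 : ℕ) : ℝ)) / 2 ^ (R + 1)))
        = (∏ i ∈ range R, a (2 ^ i * (((u + 1) / 2 + j) / 2 ^ R))) * a ((u + 1) / 2) := by
      intro j
      rw [← key]
      refine prod_congr rfl fun i _ => ?_
      congr 2
      push_cast
      rw [pow_succ]
      field_simp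
      ring
    have hsum : ∑ w ∈ range (2 ^ (R + 1)), ∏ i ∈ range (R + 1),
        a (2 ^ i * ((u + w) / 2 ^ (R + 1)))
        = (∑ j ∈ range (2 ^ R), ∏ i ∈ range R, a (2 ^ i * ((u / 2 + j) / 2 ^ R))) * a (u / 2)
        + (∑ j ∈ range (2 ^ R), ∏ i ∈ range R, a (2 ^ i * (((u + 1) / 2 + j) / 2 ^ R)))
          * a ((u + 1) / 2) := by
      rw [show 2 ^ (R + 1) = 2 * 2 ^ R from by ring]
      rw [sum_range_two_mul (fun w => ∏ i ∈ range (R + 1), a (2 ^ i * ((u + w) / 2 ^ (R + 1))))]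
      rw [sum_mul, sum_mul, ← sum_add_distrib]
      refine sum_congr rfl fun j _ => ?_
      rw [e0 j, e1 j]
    rw [hsum]
    calc _ ≤ C ^ R * a (u / 2) + C ^ R * a ((u + 1) / 2) := by
            gcongr
            · exact ha0 _
            · exact ih _
            · exact ha0 _
            · exact ih _
      _ = C ^ R * (a (u / 2) + a ((u + 1) / 2)) := by ring
      _ ≤ C ^ R * C := by gcongr; exact hC u
      _ = C ^ (R + 1) := by ring

/-- Counting by exponential weights. -/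
theorem card_le_of_exp (a : ℝ → ℝ) (R : ℕ) (C t : ℝ) (s : Finset ℕ)
    (hs : s ⊆ range (2 ^ R))
    (ha0 : ∀ x, 0 ≤ a x) (hper : Function.Periodic a 1)
    (hC : ∀ u, a (u / 2) + a ((u + 1) / 2) ≤ C) (ht : 0 < t)
    (hst : ∀ w ∈ s, t ≤ ∏ i ∈ range R, a (2 ^ i * ((w : ℝ) / 2 ^ R))) :
    (s.card : ℝ) ≤ C ^ R / t := by
  rw [le_div_iff₀ ht]
  calc (s.card : ℝ) * t = ∑ w ∈ s, t := by simp
    _ ≤ ∑ w ∈ s, ∏ i ∈ range R, a (2 ^ i * ((w : ℝ) / 2 ^ R)) := sum_le_sum hst
    _ ≤ ∑ w ∈ range (2 ^ R), ∏ i ∈ range R, a (2 ^ i * ((w : ℝ) / 2 ^ R)) := by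
        refine sum_le_sum_of_subset_of_nonneg hs fun w _ _ => prod_nonneg fun i _ => ha0 _
    _ ≤ C ^ R := by
        have := transfer a ha0 hper C hC R 0
        simpa using this

end Pool.Agent.Dilates
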