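import Mathlib
import Pool.Agent.Dilates.Transfer

set_option autoImplicit false

open Finset

namespace Pool.Agent.Dilates

/-- `e t = exp (2 π i t)` -/
noncomputable def e (t : ℝ) : ℂ := Complex.exp ((2 * Real.pi * t : ℝ) * Complex.I)

theorem norm_e (t : ℝ) : ‖e t‖ = 1 := by
  unfold e; exact Complex.norm_exp_ofReal_mul_I _

theorem e_add (s t : ℝ) : e (s + t) = e s * e t := by
  unfold e; rw [← Complex.exp_add]; congr 1; push_cast; ring

theorem e_int (n : ℤ) : e n = 1 := by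
  unfold e
  rw [show (((2 * Real.pi * (n : ℝ) : ℝ) : ℂ)) * Complex.I = n * (2 * Real.pi * Complex.I) by
    push_cast; ring]
  exact Complex.exp_int_mul_two_pi_mul_I n

theorem e_add_int (t : ℝ) (n : ℤ) : e (t + n) = e t := by
  rw [e_add, e_int, mul_one]

theorem e_half : e (1 / 2) = -1 := by
  unfold e
  rw [show (((2 * Real.pi * (1 / 2 : ℝ) : ℝ) : ℂ)) * Complex.I = Real.pi * Complex.I by
    push_cast; ring]
  exact Complex.exp_pi_mul_I

theorem e_odd_half (k : ℤ) (hk : Odd k) (v : ℝ) : e (k * (v + 1 / 2)) = - e (k * v) := by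
  obtain ⟨j, rfl⟩ := hk
  have : ((2 * j + 1 : ℤ) : ℝ) * (v + 1 / 2) = ((2 * j + 1 : ℤ) : ℝ) * v + 1 / 2 + j := by
    push_cast; ring
  rw [this, e_add_int, e_add, e_half]
  ring

theorem norm_e_sub (s t : ℝ) : ‖e s - e t‖ ≤ 2 * Real.pi * |s - t| := by
  have h : e s - e t = e t * (e (s - t) - 1) := by
    rw [mul_sub, mul_one, ← e_add]; congr 2; ring
  rw [h, norm_mul, norm_e, one_mul]
  unfold e
  have := Real.norm_exp_I_mul_ofReal_sub_one_le (x := 2 * Real.pi * (s - t))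
  rw [mul_comm Complex.I] at this
  refine this.trans ?_
  rw [Real.norm_eq_abs, abs_mul, abs_of_pos (by positivity : (0 : ℝ) < 2 * Real.pi)]

/-- The exponential sum along the doubling orbit. -/
noncomputable def S (k : ℤ) (L : ℕ) (z : ℝ) : ℂ := ∑ i ∈ range L, e (k * (2 ^ i * z))

theorem S_add_int (k : ℤ) (L : ℕ) (z : ℝ) (n : ℤ) : S k L (z + n) = S k L z := by
  unfold S
  refine sum_congr rfl fun i _ => ?_
  have : (k : ℝ) * (2 ^ i * (z + n)) = k * (2 ^ i * z) + ((k * 2 ^ i * n : ℤ) : ℝ) := by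
    push_cast; ring
  rw [this, e_add_int]

theorem norm_S_le (k : ℤ) (L : ℕ) (z : ℝ) : ‖S k L z‖ ≤ L := by
  unfold S
  refine (norm_sum_le _ _).trans ?_
  simp [norm_e]

theorem sum_two_pow_le (L : ℕ) : ∑ i ∈ range L, (2 : ℝ) ^ i ≤ 2 ^ L := by
  rw [geom_sum_eq (by norm_num)]
  rw [show (2 : ℝ) - 1 = 1 by norm_num, div_one]
  linarith

theorem norm_S_sub (k : ℤ) (L : ℕ) (z z' : ℝ) :
    ‖S k L z - S k L z'‖ ≤ 2 * Real.pi * |(k : ℝ)| * (2 ^ L * |z - z'|) := by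
  unfold S
  rw [← sum_sub_distrib]
  refine (norm_sum_le _ _).trans ?_
  calc ∑ i ∈ range L, ‖e (k * (2 ^ i * z)) - e (k * (2 ^ i * z'))‖
      ≤ ∑ i ∈ range L, (2 * Real.pi * |(k : ℝ)| * |z - z'|) * 2 ^ i := by
        refine sum_le_sum fun i _ => (norm_e_sub _ _).trans (le_of_eq ?_)
        rw [show (k : ℝ) * (2 ^ i * z) - k * (2 ^ i * z') = k * (2 ^ i * (z - z')) by ring,
          abs_mul, abs_mul, abs_of_pos (by positivity : (0 : ℝ) < 2 ^ i)]
        ring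
    _ = (2 * Real.pi * |(k : ℝ)| * |z - z'|) * ∑ i ∈ range L, (2 : ℝ) ^ i := by
        rw [mul_sum]
    _ ≤ (2 * Real.pi * |(k : ℝ)| * |z - z'|) * 2 ^ L := by
        gcongr
        exact sum_two_pow_le L
    _ = _ := by ring

/-- One-sided large deviation count. -/
theorem ld_one (k : ℤ) (hk : Odd k) (θ : ℂ) (hθ : ‖θ‖ ≤ 1) (L : ℕ) (t : ℝ) (ht : 0 ≤ t) :
    (((range (2 ^ L)).filter (fun w : ℕ => t * L ≤ (θ * S k L ((w : ℝ) / 2 ^ L)).re)).card : ℝ)
      ≤ 2 ^ L * Real.exp (-(t ^ 2 / 2) * L) := by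
  set φ : ℝ → ℝ := fun v => (θ * e (k * v)).re with hφ
  have hφ1 : ∀ v, |φ v| ≤ 1 := by
    intro v
    refine (Complex.abs_re_le_norm _).trans ?_
    rw [norm_mul, norm_e, mul_one]; exact hθ
  have hφh : ∀ v, φ (v + 1 / 2) = - φ v := by
    intro v
    simp only [hφ]
    rw [e_odd_half k hk]; simp
  have hper : Function.Periodic (fun v => Real.exp (t * φ v)) 1 := by
    intro v
    have : φ (v + 1) = φ v := by
      rw [show v + 1 = (v + 1 / 2) + 1 / 2 by ring, hφh, hφh, neg_neg]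
    simp [this]
  have hC : ∀ u : ℝ, Real.exp (t * φ (u / 2)) + Real.exp (t * φ ((u + 1) / 2))
      ≤ 2 * Real.exp (t ^ 2 / 2) := by
    intro u
    rw [show (u + 1) / 2 = u / 2 + 1 / 2 by ring, hφh]
    have h1 := Real.cosh_le_exp_half_sq (t * φ (u / 2))
    rw [Real.cosh_eq] at h1
    have h2 : Real.exp ((t * φ (u / 2)) ^ 2 / 2) ≤ Real.exp (t ^ 2 / 2) := by
      apply Real.exp_le_exp.mpr
      have h3 : (φ (u / 2)) ^ 2 ≤ 1 := by
        rw [← sq_abs]; have := hφ1 (u / 2); nlinarith [abs_nonneg (φ (u / 2))]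
      have h4 : (t * φ (u / 2)) ^ 2 ≤ t ^ 2 := by
        rw [mul_pow]; nlinarith [sq_nonneg t]
      linarith
    rw [show t * -φ (u / 2) = -(t * φ (u / 2)) by ring]
    linarith
  have := card_le_of_exp (fun v => Real.exp (t * φ v)) L (2 * Real.exp (t ^ 2 / 2))
    (Real.exp (t * (t * L)))
    ((range (2 ^ L)).filter (fun w : ℕ => t * L ≤ (θ * S k L ((w : ℝ) / 2 ^ L)).re))
    (filter_subset _ _) (fun x => (Real.exp_pos _).le) hper hC (Real.exp_pos _) ?_
  · refine this.trans (le_of_eq ?_)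
    rw [mul_pow, ← Real.exp_nat_mul, mul_div_assoc, ← Real.exp_sub]
    congr 2
    ring
  · intro w hw
    rw [mem_filter] at hw
    rw [← Real.exp_sum, ← mul_sum]
    apply Real.exp_le_exp.mpr
    have h5 : ∑ i ∈ range L, φ (2 ^ i * ((w : ℝ) / 2 ^ L)) = (θ * S k L ((w : ℝ) / 2 ^ L)).re := by
      unfold S
      rw [mul_sum, Complex.re_sum]
    rw [h5]
    exact mul_le_mul_of_nonneg_left hw.2 ht

end Pool.Agent.Dilates
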