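import Mathlib
import Pool.Agent.Dilates.ExpSum

set_option autoImplicit false

open Finset

namespace Pool.Agent.Dilates

/-- Two-sided large deviation count. -/
theorem ld (k : ℤ) (hk : Odd k) (L : ℕ) (t : ℝ) (ht : 0 ≤ t) :
    (((range (2 ^ L)).filter (fun w : ℕ => 2 * t * L < ‖S k L ((w : ℝ) / 2 ^ L)‖)).card : ℝ)
      ≤ 4 * (2 ^ L * Real.exp (-(t ^ 2 / 2) * L)) := by
  set A : ℂ → Finset ℕ := fun θ =>
    (range (2 ^ L)).filter (fun w : ℕ => t * L ≤ (θ * S k L ((w : ℝ) / 2 ^ L)).re) with hA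
  have hsub : (range (2 ^ L)).filter (fun w : ℕ => 2 * t * L < ‖S k L ((w : ℝ) / 2 ^ L)‖)
      ⊆ (A 1 ∪ A (-1)) ∪ (A Complex.I ∪ A (-Complex.I)) := by
    intro w hw
    rw [mem_filter] at hw
    obtain ⟨hw1, hw2⟩ := hw
    by_contra hcon
    simp only [hA, mem_union, mem_filter, hw1, true_and, not_or, not_le] at hcon
    obtain ⟨⟨h1, h2⟩, h3, h4⟩ := hcon
    have h5 := Complex.norm_le_abs_re_add_abs_im (S k L ((w : ℝ) / 2 ^ L))
    simp at h1 h2 h3 h4
    have h6 : |(S k L ((w : ℝ) / 2 ^ L)).re| < t * L := abs_lt.mpr ⟨by linarith, h1⟩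
    have h7 : |(S k L ((w : ℝ) / 2 ^ L)).im| < t * L := abs_lt.mpr ⟨by linarith, h4⟩
    linarith
  have hc : ∀ θ : ℂ, ‖θ‖ ≤ 1 → ((A θ).card : ℝ) ≤ 2 ^ L * Real.exp (-(t ^ 2 / 2) * L) :=
    fun θ hθ => ld_one k hk θ hθ L t ht
  have h1 := hc 1 (by simp)
  have h2 := hc (-1) (by simp)
  have h3 := hc Complex.I (by simp)
  have h4 := hc (-Complex.I) (by simp)
  have h5 : ((A 1 ∪ A (-1)) ∪ (A Complex.I ∪ A (-Complex.I))).card
      ≤ (A 1).card + (A (-1)).card + ((A Complex.I).card + (A (-Complex.I)).card) :=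
    (card_union_le _ _).trans (Nat.add_le_add (card_union_le _ _) (card_union_le _ _))
  have h6 := (card_le_card hsub).trans h5
  have h7 : (((range (2 ^ L)).filter
      (fun w : ℕ => 2 * t * L < ‖S k L ((w : ℝ) / 2 ^ L)‖)).card : ℝ)
      ≤ (A 1).card + (A (-1)).card + ((A Complex.I).card + (A (-Complex.I)).card) := by
    exact_mod_cast h6
  linarith

/-- Distance from `K x` to the nearest integer. -/
noncomputable def nK (K : ℕ) (x : ℝ) : ℝ := ‖((K * x : ℝ) : UnitAddCircle)‖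

theorem nK_nonneg (K : ℕ) (x : ℝ) : 0 ≤ nK K x := norm_nonneg _

theorem nK_le_half (K : ℕ) (x : ℝ) : nK K x ≤ 1 / 2 := by
  unfold nK
  have := AddCircle.norm_le_half_period (p := (1 : ℝ)) (x := ((K * x : ℝ) : UnitAddCircle))
    one_ne_zero
  simpa using this

theorem coe_int_eq_zero (n : ℤ) : ((n : ℝ) : UnitAddCircle) = 0 := by
  have := (AddCircle.coe_eq_zero_iff (1 : ℝ) (x := (n : ℝ))).mpr ⟨n, by simp⟩
  exact this

theorem nK_add_int (K : ℕ) (x : ℝ) (n : ℤ) : nK K (x + n) = nK K x := by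
  unfold nK
  have : (K : ℝ) * (x + n) = K * x + ((K * n : ℤ) : ℝ) := by push_cast; ring
  rw [this, AddCircle.coe_add, coe_int_eq_zero, add_zero]

theorem nK_periodic (K : ℕ) : Function.Periodic (nK K) 1 := by
  intro x
  have := nK_add_int K x 1
  simpa using this

theorem norm_coe_le_abs (t : ℝ) : ‖((t : ℝ) : UnitAddCircle)‖ ≤ |t| := by
  rw [UnitAddCircle.norm_eq]
  have := round_le t 0
  simpa using this

theorem nK_sub_le (K : ℕ) (x y : ℝ) : nK K x ≤ nK K y + K * |x - y| := by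
  unfold nK
  have h : ((K * x : ℝ) : UnitAddCircle)
      = ((K * y : ℝ) : UnitAddCircle) + ((K * (x - y) : ℝ) : UnitAddCircle) := by
    rw [← AddCircle.coe_add]; congr 1; ring
  rw [h]
  refine (norm_add_le _ _).trans ?_
  gcongr
  refine (norm_coe_le_abs _).trans ?_
  rw [abs_mul, abs_of_nonneg (by positivity : (0 : ℝ) ≤ K)]

theorem norm_half : ‖((1 / 2 : ℝ) : UnitAddCircle)‖ = 1 / 2 := by
  have := AddCircle.norm_half_period_eq (1 : ℝ)
  simpa using this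

theorem nK_halves (K : ℕ) (hK : Odd K) (u : ℝ) : 1 / 2 ≤ nK K (u / 2) + nK K ((u + 1) / 2) := by
  obtain ⟨j, hj⟩ := hK
  have h : ((1 / 2 : ℝ) : UnitAddCircle)
      = ((K * ((u + 1) / 2) : ℝ) : UnitAddCircle) - ((K * (u / 2) : ℝ) : UnitAddCircle) := by
    rw [← AddCircle.coe_sub]
    have : (K : ℝ) * ((u + 1) / 2) - K * (u / 2) = 1 / 2 + ((j : ℤ) : ℝ) := by
      rw [hj]; push_cast; ring
    rw [this, AddCircle.coe_add, coe_int_eq_zero, add_zero]
  have h2 : ‖((1 / 2 : ℝ) : UnitAddCircle)‖ ≤ ‖((K * ((u + 1) / 2) : ℝ) : UnitAddCircle)‖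
      + ‖((K * (u / 2) : ℝ) : UnitAddCircle)‖ := by
    rw [h]; exact norm_sub_le _ _
  rw [norm_half] at h2
  unfold nK
  linarith

/-- Counting the words of low complexity. -/
theorem lc_count (K : ℕ) (hK : Odd K) (R : ℕ) (Λ J : ℝ) (hΛ : 0 ≤ Λ) (s : Finset ℕ)
    (hs : s ⊆ range (2 ^ R))
    (hJ : ∀ w ∈ s, ∑ i ∈ range R, nK K (2 ^ i * ((w : ℝ) / 2 ^ R)) ≤ J) :
    (s.card : ℝ) ≤ Real.exp (Λ * J) * (1 + Real.exp (-(Λ / 4))) ^ R := by
  have hper : Function.Periodic (fun x => Real.exp (-(Λ * nK K x))) 1 := by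
    intro x; simp only; rw [nK_periodic K x]
  have hC : ∀ u : ℝ, Real.exp (-(Λ * nK K (u / 2))) + Real.exp (-(Λ * nK K ((u + 1) / 2)))
      ≤ 1 + Real.exp (-(Λ / 4)) := by
    intro u
    have h1 := nK_halves K hK u
    have h01 : Real.exp (-(Λ * nK K (u / 2))) ≤ 1 := by
      apply Real.exp_le_one_iff.mpr; have := mul_nonneg hΛ (nK_nonneg K (u / 2)); linarith
    have h02 : Real.exp (-(Λ * nK K ((u + 1) / 2))) ≤ 1 := by
      apply Real.exp_le_one_iff.mpr; have := mul_nonneg hΛ (nK_nonneg K ((u + 1) / 2)); linarith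
    rcases le_total (1 / 4) (nK K (u / 2)) with h | h
    · have h3 : Real.exp (-(Λ * nK K (u / 2))) ≤ Real.exp (-(Λ / 4)) := by
        apply Real.exp_le_exp.mpr; nlinarith
      linarith
    · have h' : 1 / 4 ≤ nK K ((u + 1) / 2) := by linarith
      have h3 : Real.exp (-(Λ * nK K ((u + 1) / 2))) ≤ Real.exp (-(Λ / 4)) := by
        apply Real.exp_le_exp.mpr; nlinarith
      linarith
  have := card_le_of_exp (fun x => Real.exp (-(Λ * nK K x))) R (1 + Real.exp (-(Λ / 4)))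
    (Real.exp (-(Λ * J))) s hs (fun x => (Real.exp_pos _).le) hper hC (Real.exp_pos _) ?_
  · refine this.trans (le_of_eq ?_)
    rw [div_eq_mul_inv, ← Real.exp_neg, neg_neg, mul_comm]
  · intro w hw
    rw [← Real.exp_sum]
    apply Real.exp_le_exp.mpr
    rw [sum_neg_distrib, ← mul_sum]
    have := mul_le_mul_of_nonneg_left (hJ w hw) hΛ
    linarith

end Pool.Agent.Dilates
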