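import Mathlib
import Pool.Agent.Dilates.Count

set_option autoImplicit false

open Finset

namespace Pool.Agent.Dilates

theorem fiber (b q L m : ℕ) (hbq : Nat.Coprime b q) (hq : 2 ^ L ≤ q) (hq2 : q < 2 ^ (L + 1))
    (hLm : L ≤ m) (W : ℕ) :
    ((range (2 ^ m)).filter (fun c => 2 ^ L * (c * b % q) / q = W)).card ≤ 6 * 2 ^ (m - L) := by
  have hq0 : 0 < q := lt_of_lt_of_le (by positivity) hq
  set t : Finset ℕ := Icc (W * q / 2 ^ L) (W * q / 2 ^ L + 2) with ht
  have htc : t.card = 3 := by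
    rw [ht, Nat.card_Icc]; omega
  have hmaps : ∀ c ∈ (range (2 ^ m)).filter (fun c => 2 ^ L * (c * b % q) / q = W),
      (c * b % q) ∈ t := by
    intro c hc
    rw [mem_filter] at hc
    set r := c * b % q with hr
    have h1 : W * q ≤ 2 ^ L * r := by
      have := Nat.div_mul_le_self (2 ^ L * r) q
      rw [hc.2] at this; exact this
    have h2 : 2 ^ L * r < (W + 1) * q := by
      have h3 := Nat.lt_mul_div_succ (2 ^ L * r) hq0
      rw [hc.2] at h3
      linarith
    rw [ht, mem_Icc]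
    have hpos : 0 < 2 ^ L := by positivity
    constructor
    · exact Nat.div_le_of_le_mul h1
    · have h4 := Nat.lt_mul_div_succ (W * q) hpos
      have h5 : 2 ^ L * r < 2 ^ L * (W * q / 2 ^ L + 3) := by
        have h6 : 2 ^ (L + 1) = 2 * 2 ^ L := by ring
        nlinarith
      have := Nat.lt_of_mul_lt_mul_left h5
      omega
  have hfib : ∀ r ∈ t, (((range (2 ^ m)).filter (fun c => 2 ^ L * (c * b % q) / q = W)).filter
      (fun c => c * b % q = r)).card ≤ 2 * 2 ^ (m - L) := by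
    intro r _
    have h1 : (((range (2 ^ m)).filter (fun c => 2 ^ L * (c * b % q) / q = W)).filter
      (fun c => c * b % q = r)).card ≤ (range (2 ^ m / q + 1)).card := by
      apply card_le_card_of_injOn (fun c => c / q)
      · intro c hc
        simp only [coe_filter, mem_filter, mem_range, Set.mem_ofPred_eq] at hc
        simp only [coe_range, Set.mem_Iio]
        exact Nat.lt_succ_of_le (Nat.div_le_div_right hc.1.1.le)
      · intro c hc c' hc' heq
        simp only [coe_filter, mem_filter, mem_range, Set.mem_ofPred_eq] at hc hc'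
        have h2 : c * b ≡ c' * b [MOD q] := by
          unfold Nat.ModEq; rw [hc.2, hc'.2]
        have h3 : c ≡ c' [MOD q] := Nat.ModEq.cancel_right_of_coprime (by
          rw [Nat.gcd_comm]; exact hbq) h2
        unfold Nat.ModEq at h3
        simp only at heq
        rw [← Nat.div_add_mod c q, ← Nat.div_add_mod c' q, heq, h3]
    refine h1.trans ?_
    rw [card_range]
    have h2 : 2 ^ m / q ≤ 2 ^ (m - L) := by
      rw [← Nat.pow_div hLm (by norm_num)]
      exact Nat.div_le_div_left hq (by positivity)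
    have h3 : 1 ≤ 2 ^ (m - L) := Nat.one_le_two_pow
    omega
  have := card_le_mul_card_image_of_maps_to hmaps (2 * 2 ^ (m - L)) hfib
  rw [htc] at this
  linarith

/-- The number of multipliers that are bad for a given reduced fraction. -/
theorem bad_count (k : ℤ) (hk : Odd k) (b q L m : ℕ) (hbq : Nat.Coprime b q) (hq : 2 ^ L ≤ q)
    (hq2 : q < 2 ^ (L + 1)) (hLm : L ≤ m) (t : ℝ) (ht : 0 ≤ t)
    (htL : 2 * Real.pi * |(k : ℝ)| ≤ 2 * t * L) :
    (((range (2 ^ m)).filter (fun c : ℕ => 4 * t * L < ‖S k L (c * ((b : ℝ) / q))‖)).card : ℝ)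
      ≤ 24 * (2 ^ m * Real.exp (-(t ^ 2 / 2) * L)) := by
  have hq0 : 0 < q := lt_of_lt_of_le (by positivity) hq
  have hq0' : (0 : ℝ) < q := by exact_mod_cast hq0
  set T : Finset ℕ :=
    (range (2 ^ L)).filter (fun w : ℕ => 2 * t * L < ‖S k L ((w : ℝ) / 2 ^ L)‖) with hT
  have hmaps : ∀ c ∈ (range (2 ^ m)).filter
      (fun c : ℕ => 4 * t * L < ‖S k L (c * ((b : ℝ) / q))‖),
      2 ^ L * (c * b % q) / q ∈ T := by
    intro c hc
    rw [mem_filter] at hc
    set r := c * b % q with hr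
    set W := 2 ^ L * r / q with hW
    have hrq : r < q := Nat.mod_lt _ hq0
    have hWlt : W < 2 ^ L := by
      rw [hW, Nat.div_lt_iff_lt_mul hq0]
      exact Nat.mul_lt_mul_of_pos_left hrq (by positivity)
    rw [hT, mem_filter, mem_range]
    refine ⟨hWlt, ?_⟩
    obtain ⟨j, hj⟩ : ∃ j : ℕ, j = c * b / q := ⟨_, rfl⟩
    have h1 : (c : ℝ) * ((b : ℝ) / q) = (r : ℝ) / q + ((j : ℤ) : ℝ) := by
      have h2 : ((c * b : ℕ) : ℝ) = (q : ℝ) * (j : ℝ) + (r : ℝ) := by
        rw [hr, hj]; exact_mod_cast (Nat.div_add_mod (c * b) q).symm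
      push_cast at h2 ⊢
      field_simp
      linarith
    have h3 : S k L (c * ((b : ℝ) / q)) = S k L ((r : ℝ) / q) := by
      rw [h1, S_add_int]
    have h4 : |(r : ℝ) / q - (W : ℝ) / 2 ^ L| ≤ 1 / 2 ^ L := by
      have h5 : (W : ℝ) * q ≤ 2 ^ L * r := by
        have := Nat.div_mul_le_self (2 ^ L * r) q
        exact_mod_cast this
      have h6 : (2 : ℝ) ^ L * r < q * (W + 1) := by
        have := Nat.lt_mul_div_succ (2 ^ L * r) hq0
        exact_mod_cast this
      have hp : (0 : ℝ) < 2 ^ L := by positivity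
      rw [abs_le]
      constructor
      · have : (W : ℝ) / 2 ^ L ≤ (r : ℝ) / q := by
          rw [div_le_div_iff₀ hp hq0']; linarith
        have : (0 : ℝ) < 1 / 2 ^ L := by positivity
        linarith
      · rw [sub_le_iff_le_add, ← add_div, div_le_div_iff₀ hq0' hp]
        linarith
    have h7 := norm_S_sub k L ((r : ℝ) / q) ((W : ℝ) / 2 ^ L)
    have h8 : 2 * Real.pi * |(k : ℝ)| * (2 ^ L * |(r : ℝ) / q - (W : ℝ) / 2 ^ L|)
        ≤ 2 * Real.pi * |(k : ℝ)| := by
      have h9 : (2 : ℝ) ^ L * |(r : ℝ) / q - (W : ℝ) / 2 ^ L| ≤ 1 := by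
        calc (2 : ℝ) ^ L * |(r : ℝ) / q - (W : ℝ) / 2 ^ L| ≤ 2 ^ L * (1 / 2 ^ L) := by gcongr
          _ = 1 := by field_simp
      calc 2 * Real.pi * |(k : ℝ)| * (2 ^ L * |(r : ℝ) / q - (W : ℝ) / 2 ^ L|)
          ≤ 2 * Real.pi * |(k : ℝ)| * 1 := by gcongr
        _ = _ := mul_one _
    have h10 := norm_sub_norm_le (S k L ((r : ℝ) / q)) (S k L ((W : ℝ) / 2 ^ L))
    have h11 := hc.2
    rw [h3] at h11
    linarith
  have hfib : ∀ W ∈ T, (((range (2 ^ m)).filter
      (fun c : ℕ => 4 * t * L < ‖S k L (c * ((b : ℝ) / q))‖)).filter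
      (fun c => 2 ^ L * (c * b % q) / q = W)).card ≤ 6 * 2 ^ (m - L) := by
    intro W _
    refine le_trans (card_le_card ?_) (fiber b q L m hbq hq hq2 hLm W)
    intro c hc
    simp only [mem_filter] at hc ⊢
    exact ⟨hc.1.1, hc.2⟩
  have h1 := card_le_mul_card_image_of_maps_to hmaps (6 * 2 ^ (m - L)) hfib
  have h2 : (T.card : ℝ) ≤ 4 * (2 ^ L * Real.exp (-(t ^ 2 / 2) * L)) := ld k hk L t ht
  have h3 : (((range (2 ^ m)).filter
      (fun c : ℕ => 4 * t * L < ‖S k L (c * ((b : ℝ) / q))‖)).card : ℝ)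
      ≤ (6 * 2 ^ (m - L)) * T.card := by exact_mod_cast h1
  refine h3.trans ?_
  have h4 : (2 : ℝ) ^ m = 2 ^ (m - L) * 2 ^ L := by
    rw [← pow_add, Nat.sub_add_cancel hLm]
  calc (6 * 2 ^ (m - L) : ℝ) * T.card
      ≤ (6 * 2 ^ (m - L)) * (4 * (2 ^ L * Real.exp (-(t ^ 2 / 2) * L))) := by gcongr
    _ = 24 * (2 ^ m * Real.exp (-(t ^ 2 / 2) * L)) := by rw [h4]; ring

end Pool.Agent.Dilates
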