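import Mathlib
import Pool.Agent.Dilates.Tile

set_option autoImplicit false

open Finset Filter Topology

namespace Pool.Agent.Dilates

theorem core (k : ℤ) (hk : Odd k) (ε : ℝ) (hε : 0 < ε) :
    ∃ δ : ℝ, 0 < δ ∧ ∀ K : ℕ, Odd K → ∀ η : ℝ, 0 < η → ∃ L₁ : ℕ, ∀ m : ℕ,
      ∃ B : Finset ℕ, (B.card : ℝ) ≤ 2 ^ m * η ∧ ∀ c : ℕ, c < 2 ^ m → c ∉ B → ∀ x : ℝ,
        (∃ q : ℕ, 0 < q ∧ q ≤ 2 ^ L₁ ∧ ∃ b : ℤ, |x - b / q| ≤ 1 / 2 ^ m) ∨
        ∃ M : ℕ, 1 ≤ M ∧ M ≤ 2 * m ∧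
          ‖S k M (c * x)‖ ≤ ε * M + δ⁻¹ * ∑ i ∈ range M, nK K (2 ^ i * x) := by
  set t : ℝ := ε / 8 with htdef
  have ht : 0 < t := by positivity
  set Λ : ℝ := 64 / t ^ 2 with hΛdef
  have hΛ : 0 < Λ := by positivity
  set δ : ℝ := t ^ 2 / (16 * Λ) with hδdef
  have hδ : 0 < δ := by positivity
  refine ⟨δ, hδ, ?_⟩
  intro K hK η hη
  have hΛδ : Λ * (2 * δ) ≤ t ^ 2 / 8 := by
    rw [hδdef]; apply le_of_eq; field_simp; norm_num
  have hΛt : Real.exp (-(Λ / 4)) ≤ t ^ 2 / 16 := by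
    have h1 : Λ / 4 = 16 / t ^ 2 := by rw [hΛdef]; ring
    rw [h1, Real.exp_neg]
    have h2 : 16 / t ^ 2 ≤ Real.exp (16 / t ^ 2) := by
      have := Real.add_one_le_exp (16 / t ^ 2)
      linarith
    have h3 : (0 : ℝ) < 16 / t ^ 2 := by positivity
    calc (Real.exp (16 / t ^ 2))⁻¹ ≤ (16 / t ^ 2)⁻¹ := by
          apply inv_anti₀ h3 h2
      _ = t ^ 2 / 16 := by rw [inv_div]
  set ρ : ℝ := Real.exp (-(t ^ 2 / 4)) with hρ
  have hρ0 : 0 ≤ ρ := (Real.exp_pos _).le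
  have hρ1 : ρ < 1 := by
    have h0 : 0 < t ^ 2 / 4 := by positivity
    rw [hρ]; apply Real.exp_lt_one_iff.mpr
    linarith
  set A : ℝ := 24 * Real.exp (Λ * (2 * K + 1) + t ^ 2 / 8) with hA
  have htend : Tendsto (fun n : ℕ => A * (ρ ^ n / (1 - ρ))) atTop (𝓝 0) := by
    have h1 := (tendsto_pow_atTop_nhds_zero_of_lt_one hρ0 hρ1).div_const (1 - ρ)
    have h2 := h1.const_mul A
    simpa using h2
  have hev1 := (htend.eventually (gt_mem_nhds hη))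
  have hev2 := eventually_ge_atTop (Nat.ceil (Real.pi * |(k : ℝ)| / t))
  obtain ⟨L₁, hL1, hL2, hL3⟩ := (hev1.and (hev2.and (eventually_ge_atTop 1))).exists
  refine ⟨L₁, fun m => ⟨badSet k K δ t L₁ m, ?_, ?_⟩⟩
  · have htL : 2 * Real.pi * |(k : ℝ)| ≤ 2 * t * L₁ := by
      have h1 : Real.pi * |(k : ℝ)| / t ≤ L₁ := (Nat.le_ceil _).trans (by exact_mod_cast hL2)
      rw [div_le_iff₀ ht] at h1
      linarith
    refine (badSet_card k hk K hK δ t Λ hΛ.le L₁ m ht.le hΛδ hΛt htL).trans ?_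
    refine mul_le_mul_of_nonneg_left ?_ (by positivity)
    refine le_trans ?_ hL1.le
    rw [← hA]
    refine mul_le_mul_of_nonneg_left ?_ (by positivity)
    exact geom_sum_Ico_le_of_lt_one hρ0 hρ1
  · intro c hc hcb x
    have htL : 2 * Real.pi * |(k : ℝ)| ≤ 2 * t * L₁ := by
      have h1 : Real.pi * |(k : ℝ)| / t ≤ L₁ := (Nat.le_ceil _).trans (by exact_mod_cast hL2)
      rw [div_le_iff₀ ht] at h1
      linarith
    have := tile_of_not_bad k K δ t hδ ht L₁ m c hL3 htL hc hcb x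
    have h8 : 8 * t = ε := by rw [htdef]; ring
    rw [h8] at this
    exact this

end Pool.Agent.Dilates
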