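import Mathlib
import Pool.Agent.Dilates.Main1

set_option autoImplicit false

open Finset MeasureTheory Filter Topology

namespace Pool.Agent.Dilates

theorem tile_pointwise {X : Type*} (T : X → X) (f : X → ℂ) (hf1 : ∀ x, ‖f x‖ ≤ 1)
    (h : X → ℝ) (h0 : ∀ x, 0 ≤ h x) (Mmax : ℕ)
    (htile : ∀ x, ∃ M : ℕ, 1 ≤ M ∧ M ≤ Mmax ∧
      ‖∑ i ∈ range M, f (T^[i] x)‖ ≤ ∑ i ∈ range M, h (T^[i] x)) (N : ℕ) :
    ∀ x, ‖∑ i ∈ range N, f (T^[i] x)‖ ≤ ∑ i ∈ range N, h (T^[i] x) + Mmax := by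
  induction N using Nat.strong_induction_on with
  | _ N ih =>
    intro x
    obtain ⟨M, hM1, hM2, hM3⟩ := htile x
    by_cases hNM : N < M
    · have h1 : ‖∑ i ∈ range N, f (T^[i] x)‖ ≤ N := by
        refine (norm_sum_le _ _).trans ?_
        calc ∑ i ∈ range N, ‖f (T^[i] x)‖ ≤ ∑ i ∈ range N, (1 : ℝ) :=
              sum_le_sum fun i _ => hf1 _
          _ = N := by simp
      have h2 : 0 ≤ ∑ i ∈ range N, h (T^[i] x) := sum_nonneg fun i _ => h0 _
      have h3 : (N : ℝ) ≤ Mmax := by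
        have : N ≤ Mmax := by omega
        exact_mod_cast this
      linarith
    · push Not at hNM
      obtain ⟨N', rfl⟩ := Nat.exists_eq_add_of_le hNM
      have h1 := ih N' (by omega) (T^[M] x)
      have e1 : ∀ g : X → ℂ, ∑ i ∈ range (M + N'), g (T^[i] x)
          = ∑ i ∈ range M, g (T^[i] x) + ∑ i ∈ range N', g (T^[i] (T^[M] x)) := by
        intro g
        rw [sum_range_add]
        congr 1
        refine sum_congr rfl fun i _ => ?_
        rw [← Function.iterate_add_apply, add_comm i M]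
      have e2 : ∑ i ∈ range (M + N'), h (T^[i] x)
          = ∑ i ∈ range M, h (T^[i] x) + ∑ i ∈ range N', h (T^[i] (T^[M] x)) := by
        rw [sum_range_add]
        congr 1
        refine sum_congr rfl fun i _ => ?_
        rw [← Function.iterate_add_apply, add_comm i M]
      rw [e1, e2]
      refine (norm_add_le _ _).trans ?_
      linarith

theorem tile_integral {X : Type*} [MeasurableSpace X] (μ : Measure X) [IsProbabilityMeasure μ]
    (T : X → X) (hT : MeasurePreserving T μ μ) (f : X → ℂ) (hf : Measurable f)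
    (hf1 : ∀ x, ‖f x‖ ≤ 1) (h : X → ℝ) (h0 : ∀ x, 0 ≤ h x) (hh : Measurable h)
    (hint : Integrable h μ) (Mmax : ℕ)
    (htile : ∀ x, ∃ M : ℕ, 1 ≤ M ∧ M ≤ Mmax ∧
      ‖∑ i ∈ range M, f (T^[i] x)‖ ≤ ∑ i ∈ range M, h (T^[i] x)) :
    ‖∫ x, f x ∂μ‖ ≤ ∫ x, h x ∂μ := by
  have hfint : Integrable f μ := by
    refine Integrable.of_bound hf.aestronglyMeasurable 1 (ae_of_all _ hf1)
  have hTi : ∀ i : ℕ, MeasurePreserving (T^[i]) μ μ := fun i => hT.iterate i
  have hfi : ∀ i : ℕ, ∫ x, f (T^[i] x) ∂μ = ∫ x, f x ∂μ := by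
    intro i
    have h1 := integral_map (hTi i).measurable.aemeasurable
      (f := f) (μ := μ) hf.aestronglyMeasurable
    rw [(hTi i).map_eq] at h1
    exact h1.symm
  have hhi : ∀ i : ℕ, ∫ x, h (T^[i] x) ∂μ = ∫ x, h x ∂μ := by
    intro i
    have h1 := integral_map (hTi i).measurable.aemeasurable
      (f := h) (μ := μ) hh.aestronglyMeasurable
    rw [(hTi i).map_eq] at h1
    exact h1.symm
  have hfint' : ∀ i : ℕ, Integrable (fun x => f (T^[i] x)) μ := fun i =>
    (hTi i).integrable_comp_of_integrable hfint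
  have hhint' : ∀ i : ℕ, Integrable (fun x => h (T^[i] x)) μ := fun i =>
    (hTi i).integrable_comp_of_integrable hint
  have hN : ∀ N : ℕ, N * ‖∫ x, f x ∂μ‖ ≤ N * ∫ x, h x ∂μ + Mmax := by
    intro N
    have h1 : ∫ x, ∑ i ∈ range N, f (T^[i] x) ∂μ = N * ∫ x, f x ∂μ := by
      rw [integral_finsetSum _ (fun i _ => hfint' i)]
      simp [hfi]
    have h2 : ∫ x, ∑ i ∈ range N, h (T^[i] x) ∂μ = N * ∫ x, h x ∂μ := by
      rw [integral_finsetSum _ (fun i _ => hhint' i)]
      simp [hhi]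
    calc (N : ℝ) * ‖∫ x, f x ∂μ‖ = ‖∫ x, ∑ i ∈ range N, f (T^[i] x) ∂μ‖ := by
          rw [h1, norm_mul]; simp
      _ ≤ ∫ x, ‖∑ i ∈ range N, f (T^[i] x)‖ ∂μ := norm_integral_le_integral_norm _
      _ ≤ ∫ x, (∑ i ∈ range N, h (T^[i] x) + Mmax) ∂μ := by
          refine integral_mono_ae ?_ ?_ (ae_of_all _ fun x => ?_)
          · exact (integrable_finsetSum _ fun i _ => hfint' i).norm
          · exact (integrable_finsetSum _ fun i _ => hhint' i).add (integrable_const _)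
          · exact tile_pointwise T f hf1 h h0 Mmax htile N x
      _ = N * ∫ x, h x ∂μ + Mmax := by
          rw [integral_add (integrable_finsetSum _ fun i _ => hhint' i) (integrable_const _), h2]
          simp
  by_contra hcon
  push Not at hcon
  obtain ⟨N, hN'⟩ := exists_nat_gt ((Mmax : ℝ) / (‖∫ x, f x ∂μ‖ - ∫ x, h x ∂μ))
  have hpos : 0 < ‖∫ x, f x ∂μ‖ - ∫ x, h x ∂μ := by linarith
  rw [div_lt_iff₀ hpos] at hN'
  have := hN N
  linarith

end Pool.Agent.Dilates
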