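import Mathlib
import Pool.Agent.Dilates.TileInt

set_option autoImplicit false

open Finset MeasureTheory Filter Topology

namespace Pool.Agent.Dilates

/-- The set of doubling-invariant probability measures on the circle. -/
def P2 : Set (ProbabilityMeasure UnitAddCircle) :=
  {ν | (ν : Measure UnitAddCircle).map (fun x : UnitAddCircle => 2 • x)
    = (ν : Measure UnitAddCircle)}

theorem fourier_eq_e (n : ℤ) (t : ℝ) :
    (fourier n ((t : ℝ) : UnitAddCircle) : ℂ) = e (n * t) := by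
  rw [fourier_coe_apply]
  unfold e
  congr 1
  push_cast
  ring

theorem continuous_two_smul : Continuous (fun x : UnitAddCircle => 2 • x) :=
  continuous_const_smul 2

theorem iterate_two_smul (i : ℕ) (t : ℝ) :
    (fun x : UnitAddCircle => 2 • x)^[i] ((t : ℝ) : UnitAddCircle)
      = ((2 ^ i * t : ℝ) : UnitAddCircle) := by
  induction i with
  | zero => simp
  | succ i ih =>
    rw [Function.iterate_succ_apply', ih, two_nsmul, ← AddCircle.coe_add]
    congr 1
    ring

theorem P2_preserving {μ : ProbabilityMeasure UnitAddCircle} (hμ : μ ∈ P2) :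
    MeasurePreserving (fun x : UnitAddCircle => 2 • x) (μ : Measure UnitAddCircle)
      (μ : Measure UnitAddCircle) :=
  ⟨continuous_two_smul.measurable, hμ⟩

theorem nsmul_coe (K : ℕ) (t : ℝ) : K • ((t : ℝ) : UnitAddCircle)
    = ((K * t : ℝ) : UnitAddCircle) := by
  rw [← AddCircle.coe_nsmul, nsmul_eq_mul]

theorem key_bound (k : ℤ) (c m L₁ K : ℕ) (ε δ : ℝ) (hε : 0 ≤ ε) (hδ : 0 < δ)
    (htile : ∀ x : ℝ, (∃ q : ℕ, 0 < q ∧ q ≤ 2 ^ L₁ ∧ ∃ b : ℤ, |x - b / q| ≤ 1 / 2 ^ m) ∨
        ∃ M : ℕ, 1 ≤ M ∧ M ≤ 2 * m ∧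
          ‖S k M (c * x)‖ ≤ ε * M + δ⁻¹ * ∑ i ∈ range M, nK K (2 ^ i * x))
    (μ : ProbabilityMeasure UnitAddCircle) (hμ : μ ∈ P2) (N : Set UnitAddCircle)
    (hN : MeasurableSet N)
    (hNsub : ∀ x : ℝ, (∃ q : ℕ, 0 < q ∧ q ≤ 2 ^ L₁ ∧ ∃ b : ℤ, |x - b / q| ≤ 1 / 2 ^ m) →
      ((x : ℝ) : UnitAddCircle) ∈ N) :
    ‖∫ x, (fourier (k * c) x : ℂ) ∂(μ : Measure UnitAddCircle)‖ ≤
      ε + δ⁻¹ * ∫ x, ‖K • x‖ ∂(μ : Measure UnitAddCircle)
        + (μ : Measure UnitAddCircle).real N := by
  set h : UnitAddCircle → ℝ := fun x => ε + δ⁻¹ * ‖K • x‖ + N.indicator (fun _ => (1 : ℝ)) x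
    with hh
  have hcont : Continuous fun x : UnitAddCircle => ‖K • x‖ := (continuous_const_smul K).norm
  have hbd : ∀ x : UnitAddCircle, ‖K • x‖ ≤ 1 / 2 := by
    intro x
    have := AddCircle.norm_le_half_period (p := (1 : ℝ)) (x := K • x) one_ne_zero
    simpa using this
  have hint1 : Integrable (fun x : UnitAddCircle => ‖K • x‖) (μ : Measure UnitAddCircle) := by
    refine Integrable.of_bound hcont.aestronglyMeasurable (1 / 2) (ae_of_all _ fun x => ?_)
    rw [norm_norm]; exact hbd x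
  have hint2 : Integrable (N.indicator (fun _ => (1 : ℝ))) (μ : Measure UnitAddCircle) :=
    (integrable_const _).indicator hN
  have h0 : ∀ x, 0 ≤ h x := by
    intro x
    have h1 : 0 ≤ N.indicator (fun _ => (1 : ℝ)) x := Set.indicator_nonneg (by simp) x
    have h2 : 0 ≤ δ⁻¹ * ‖K • x‖ := mul_nonneg (inv_nonneg.mpr hδ.le) (norm_nonneg _)
    simp only [hh]; linarith
  have hmeas : Measurable h := by
    simp only [hh]
    exact ((measurable_const.add (hcont.measurable.const_mul _)).add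
      (measurable_const.indicator hN))
  have hinth : Integrable h (μ : Measure UnitAddCircle) :=
    ((integrable_const ε).add (hint1.const_mul _)).add hint2
  have hle := tile_integral (μ : Measure UnitAddCircle) (fun x : UnitAddCircle => 2 • x)
    (P2_preserving hμ) (fun x => (fourier (k * c) x : ℂ)) (by fun_prop)
    (fun x => by rw [fourier_apply]; exact (Circle.norm_coe _).le) h h0 hmeas hinth
    (2 * m + 1) ?_
  · refine hle.trans (le_of_eq ?_)
    simp only [hh]
    have e1 : ∫ x, (ε + δ⁻¹ * ‖K • x‖ + N.indicator (fun _ => (1 : ℝ)) x)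
        ∂(μ : Measure UnitAddCircle)
        = ∫ x, (ε + δ⁻¹ * ‖K • x‖) ∂(μ : Measure UnitAddCircle)
          + ∫ x, N.indicator (fun _ => (1 : ℝ)) x ∂(μ : Measure UnitAddCircle) :=
      integral_add ((integrable_const ε).add (hint1.const_mul _)) hint2
    have e2 : ∫ x, (ε + δ⁻¹ * ‖K • x‖) ∂(μ : Measure UnitAddCircle)
        = ∫ _x, ε ∂(μ : Measure UnitAddCircle)
          + ∫ x, δ⁻¹ * ‖K • x‖ ∂(μ : Measure UnitAddCircle) :=
      integral_add (integrable_const ε) (hint1.const_mul _)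
    rw [e1, e2, integral_const_mul, integral_indicator hN]
    simp
  · intro x
    obtain ⟨t, rfl⟩ := QuotientAddGroup.mk_surjective x
    simp only [iterate_two_smul, fourier_eq_e]
    rcases htile t with hq | ⟨M, hM1, hM2, hM3⟩
    · refine ⟨1, le_rfl, by omega, ?_⟩
      have hmem := hNsub t hq
      simp only [sum_range_one, pow_zero, one_mul, norm_e, hh]
      rw [Set.indicator_of_mem hmem]
      have h2 : 0 ≤ δ⁻¹ * ‖K • ((t : ℝ) : UnitAddCircle)‖ :=
        mul_nonneg (inv_nonneg.mpr hδ.le) (norm_nonneg _)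
      linarith
    · refine ⟨M, hM1, by omega, ?_⟩
      have e1 : ∑ i ∈ range M, e (((k * c : ℤ) : ℝ) * (2 ^ i * t)) = S k M (c * t) := by
        unfold S
        refine sum_congr rfl fun i _ => ?_
        congr 1; push_cast; ring
      rw [e1]
      refine hM3.trans ?_
      have e2 : ε * M + δ⁻¹ * ∑ i ∈ range M, nK K (2 ^ i * t)
          = ∑ i ∈ range M, (ε + δ⁻¹ * nK K (2 ^ i * t)) := by
        rw [sum_add_distrib, mul_sum]; simp [mul_comm]
      rw [e2]
      refine sum_le_sum fun i _ => ?_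
      simp only [hh]
      have h1 : 0 ≤ N.indicator (fun _ => (1 : ℝ)) ((2 ^ i * t : ℝ) : UnitAddCircle) :=
        Set.indicator_nonneg (by simp) _
      have h2 : ‖K • ((2 ^ i * t : ℝ) : UnitAddCircle)‖ = nK K (2 ^ i * t) := by
        rw [nsmul_coe]; rfl
      rw [h2]
      linarith

end Pool.Agent.Dilates
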