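import Mathlib
import Pool.Agent.Dilates.Circle

set_option autoImplicit false

open Finset MeasureTheory Filter Topology

namespace Pool.Agent.Dilates

theorem integrable_cont (ν : Measure UnitAddCircle) [IsProbabilityMeasure ν]
    (g : C(UnitAddCircle, ℂ)) : Integrable (fun x => g x) ν :=
  Integrable.of_bound g.continuous.aestronglyMeasurable ‖g‖ (ae_of_all _ fun x => g.norm_coe_le_norm x)

theorem tendsto_integral_of_fourier {ι : Type*} (l : Filter ι) (ν : ι → Measure UnitAddCircle)
    [∀ i, IsProbabilityMeasure (ν i)] (ν₀ : Measure UnitAddCircle) [IsProbabilityMeasure ν₀]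
    (h : ∀ j : ℤ, Tendsto (fun i => ∫ x, (fourier j x : ℂ) ∂ν i) l
      (𝓝 (∫ x, (fourier j x : ℂ) ∂ν₀))) (g : C(UnitAddCircle, ℂ)) :
    Tendsto (fun i => ∫ x, g x ∂ν i) l (𝓝 (∫ x, g x ∂ν₀)) := by
  -- first, the span of the Fourier monomials
  have hspan : ∀ P ∈ Submodule.span ℂ (Set.range (fourier (T := (1 : ℝ)))),
      Tendsto (fun i => ∫ x, P x ∂ν i) l (𝓝 (∫ x, P x ∂ν₀)) := by
    intro P hP
    induction hP using Submodule.span_induction with
    | mem P hP =>
      obtain ⟨j, rfl⟩ := hP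
      exact h j
    | zero =>
      simp only [ContinuousMap.zero_apply, integral_zero]
      exact tendsto_const_nhds
    | add P Q _ _ hP hQ =>
      have e1 : ∀ (ν : Measure UnitAddCircle) [IsProbabilityMeasure ν],
          ∫ x, (P + Q) x ∂ν = ∫ x, P x ∂ν + ∫ x, Q x ∂ν := by
        intro ν _
        simp only [ContinuousMap.add_apply]
        exact integral_add (integrable_cont ν P) (integrable_cont ν Q)
      simp only [e1]
      exact hP.add hQ
    | smul a P _ hP =>
      have e1 : ∀ (ν : Measure UnitAddCircle) [IsProbabilityMeasure ν],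
          ∫ x, (a • P) x ∂ν = a * ∫ x, P x ∂ν := by
        intro ν _
        simp only [ContinuousMap.smul_apply, smul_eq_mul]
        exact integral_const_mul _ _
      simp only [e1]
      exact hP.const_mul a
  have hmem : g ∈ (Submodule.span ℂ (Set.range (fourier (T := (1 : ℝ))))).topologicalClosure := by
    rw [span_fourier_closure_eq_top]; trivial
  rw [Metric.tendsto_nhds]
  intro ε hε
  have hmem' : g ∈ closure
      ((Submodule.span ℂ (Set.range (fourier (T := (1 : ℝ)))) : Set C(UnitAddCircle, ℂ))) := by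
    have := hmem
    rwa [← SetLike.mem_coe, Submodule.topologicalClosure_coe] at this
  obtain ⟨P, hP, hgP⟩ := Metric.mem_closure_iff.mp hmem' (ε / 3) (by positivity)
  have hclose : ∀ (ν : Measure UnitAddCircle) [IsProbabilityMeasure ν],
      dist (∫ x, g x ∂ν) (∫ x, P x ∂ν) ≤ ε / 3 := by
    intro ν _
    rw [dist_eq_norm, ← integral_sub (integrable_cont ν g) (integrable_cont ν P)]
    have h1 : ∀ x, ‖g x - P x‖ ≤ ε / 3 := by
      intro x
      have := (g - P).norm_coe_le_norm x
      rw [dist_eq_norm] at hgP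
      simpa using this.trans hgP.le
    have := norm_integral_le_of_norm_le_const (μ := ν) (ae_of_all _ h1)
    simpa using this
  filter_upwards [(Metric.tendsto_nhds.mp (hspan P hP)) (ε / 3) (by positivity)] with i hi
  calc dist (∫ x, g x ∂ν i) (∫ x, g x ∂ν₀)
      ≤ dist (∫ x, g x ∂ν i) (∫ x, P x ∂ν i) + dist (∫ x, P x ∂ν i) (∫ x, P x ∂ν₀)
        + dist (∫ x, P x ∂ν₀) (∫ x, g x ∂ν₀) := dist_triangle4 _ _ _ _
    _ < ε / 3 + ε / 3 + ε / 3 := by
        have h1 := hclose (ν i)
        have h2 := hclose ν₀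
        rw [dist_comm] at h2
        linarith
    _ = ε := by ring

theorem tendsto_of_fourier {ι : Type*} (l : Filter ι) (ν : ι → ProbabilityMeasure UnitAddCircle)
    (ν₀ : ProbabilityMeasure UnitAddCircle)
    (h : ∀ j : ℤ, Tendsto (fun i => ∫ x, (fourier j x : ℂ) ∂(ν i : Measure UnitAddCircle)) l
      (𝓝 (∫ x, (fourier j x : ℂ) ∂(ν₀ : Measure UnitAddCircle)))) :
    Tendsto ν l (𝓝 ν₀) := by
  rw [ProbabilityMeasure.tendsto_iff_forall_integral_rclike_tendsto ℂ]
  intro f
  exact tendsto_integral_of_fourier l (fun i => (ν i : Measure UnitAddCircle))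
    (ν₀ : Measure UnitAddCircle) h f.toContinuousMap

/-- Every point of the circle has a real representative of the same norm. -/
theorem exists_rep (z : UnitAddCircle) : ∃ t : ℝ, ((t : ℝ) : UnitAddCircle) = z ∧ |t| = ‖z‖ := by
  obtain ⟨u, rfl⟩ := QuotientAddGroup.mk_surjective z
  refine ⟨u - round u, ?_, ?_⟩
  · have := coe_int_eq_zero (round u)
    rw [AddCircle.coe_sub, this, sub_zero]
  · exact (UnitAddCircle.norm_eq (x := u)).symm

theorem norm_fourier_sub (j : ℤ) (x y : UnitAddCircle) :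
    ‖(fourier j x : ℂ) - (fourier j y : ℂ)‖ ≤ 2 * Real.pi * |(j : ℝ)| * ‖x - y‖ := by
  obtain ⟨t, ht1, ht2⟩ := exists_rep (x - y)
  obtain ⟨u, rfl⟩ := QuotientAddGroup.mk_surjective y
  have hx : x = ((t + u : ℝ) : UnitAddCircle) := by
    rw [AddCircle.coe_add, ht1]; exact (sub_add_cancel x _).symm
  rw [← ht2, hx]
  change ‖(fourier j ((t + u : ℝ) : UnitAddCircle) : ℂ)
    - (fourier j ((u : ℝ) : UnitAddCircle) : ℂ)‖ ≤ _
  rw [fourier_eq_e, fourier_eq_e]
  refine (norm_e_sub _ _).trans (le_of_eq ?_)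
  rw [← mul_sub, add_sub_cancel_right, abs_mul]
  ring

end Pool.Agent.Dilates
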