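import Mathlib
import Pool.Agent.Dilates.Weyl

set_option autoImplicit false

open Finset MeasureTheory Filter Topology
open scoped ENNReal

namespace Pool.Agent.Dilates

/-- The average of finitely many push-forwards of a measure. -/
noncomputable def avg (μ : Measure UnitAddCircle) (s : ℕ)
    (φ : ℕ → UnitAddCircle → UnitAddCircle) : Measure UnitAddCircle :=
  (s : ℝ≥0∞)⁻¹ • ∑ i ∈ range s, μ.map (φ i)

theorem avg_prob (μ : Measure UnitAddCircle) [IsProbabilityMeasure μ] (s : ℕ) (hs : 0 < s)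
    (φ : ℕ → UnitAddCircle → UnitAddCircle) (hφ : ∀ i, Measurable (φ i)) :
    IsProbabilityMeasure (avg μ s φ) := by
  constructor
  unfold avg
  rw [Measure.smul_apply, Measure.finsetSum_apply]
  have : ∀ i ∈ range s, (μ.map (φ i)) Set.univ = 1 := by
    intro i _
    rw [Measure.map_apply (hφ i) MeasurableSet.univ]; simp
  rw [sum_congr rfl this]
  simp only [sum_const, card_range, nsmul_eq_mul, mul_one, smul_eq_mul]
  exact ENNReal.inv_mul_cancel (by exact_mod_cast hs.ne') (ENNReal.natCast_ne_top s)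

theorem avg_map_two (μ : Measure UnitAddCircle) (s : ℕ) (hs : 0 < s)
    (φ : ℕ → UnitAddCircle → UnitAddCircle)
    (hstep : ∀ i, (μ.map (φ i)).map (fun x => 2 • x) = μ.map (φ (i + 1)))
    (hcyc : μ.map (φ s) = μ.map (φ 0)) :
    (avg μ s φ).map (fun x => 2 • x) = avg μ s φ := by
  unfold avg
  have h2 : AEMeasurable (fun x : UnitAddCircle => 2 • x) (∑ i ∈ range s, μ.map (φ i)) :=
    continuous_two_smul.measurable.aemeasurable
  rw [Measure.map_smul]
  congr 1
  rw [Measure.map_finset_sum h2]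
  rw [sum_congr rfl (fun i _ => hstep i)]
  obtain ⟨s', rfl⟩ := Nat.exists_eq_succ_of_ne_zero hs.ne'
  rw [Nat.succ_eq_add_one, sum_range_succ, hcyc, sum_range_succ' (fun i => μ.map (φ i))]

theorem avg_integral {E : Type*} [NormedAddCommGroup E] [NormedSpace ℝ E]
    (μ : Measure UnitAddCircle) [IsProbabilityMeasure μ]
    (s : ℕ) (φ : ℕ → UnitAddCircle → UnitAddCircle) (hφ : ∀ i, Measurable (φ i))
    (g : UnitAddCircle → E) (hg : StronglyMeasurable g) (C : ℝ) (hC : ∀ x, ‖g x‖ ≤ C) :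
    ∫ x, g x ∂(avg μ s φ) = ((s : ℝ)⁻¹) • ∑ i ∈ range s, ∫ x, g (φ i x) ∂μ := by
  unfold avg
  rw [integral_smul_measure]
  have h1 : ((s : ℝ≥0∞)⁻¹).toReal = (s : ℝ)⁻¹ := by simp
  rw [h1]
  congr 1
  have hi : ∀ i ∈ range s, Integrable g (μ.map (φ i)) := by
    intro i _
    have : IsProbabilityMeasure (μ.map (φ i)) :=
      Measure.isProbabilityMeasure_map (hφ i).aemeasurable
    exact Integrable.of_bound hg.aestronglyMeasurable C (ae_of_all _ hC)
  rw [integral_finsetSum_measure hi]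
  refine sum_congr rfl fun i _ => ?_
  exact integral_map (hφ i).aemeasurable hg.aestronglyMeasurable

/-- Closeness of the average in terms of Fourier coefficients. -/
theorem avg_fourier (μ : Measure UnitAddCircle) [IsProbabilityMeasure μ]
    (s : ℕ) (hs : 0 < s) (φ ψ : ℕ → UnitAddCircle → UnitAddCircle)
    (hφ : ∀ i, Measurable (φ i)) (hψ : ∀ i, Measurable (ψ i)) (hψμ : ∀ i, μ.map (ψ i) = μ)
    (hclose : ∀ i < s, ∀ x, ‖φ i x - ψ i x‖ ≤ 2 * 2 ^ i / 2 ^ s) (j : ℤ) :
    ‖∫ x, (fourier j x : ℂ) ∂(avg μ s φ) - ∫ x, (fourier j x : ℂ) ∂μ‖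
      ≤ 4 * Real.pi * |(j : ℝ)| / s := by
  have hs' : (0 : ℝ) < s := by exact_mod_cast hs
  have hsm : StronglyMeasurable (fun x : UnitAddCircle => (fourier j x : ℂ)) :=
    (map_continuous (fourier j)).stronglyMeasurable
  have hb : ∀ x : UnitAddCircle, ‖(fourier j x : ℂ)‖ ≤ 1 := fun x => by
    rw [fourier_apply]; exact (Circle.norm_coe _).le
  rw [avg_integral μ s φ hφ (fun x => (fourier j x : ℂ)) hsm 1 hb]
  have e1 : ∫ x, (fourier j x : ℂ) ∂μ
      = ((s : ℝ)⁻¹) • ∑ i ∈ range s, ∫ x, (fourier j (ψ i x) : ℂ) ∂μ := by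
    have h1 : ∀ i ∈ range s, ∫ x, (fourier j (ψ i x) : ℂ) ∂μ = ∫ x, (fourier j x : ℂ) ∂μ := by
      intro i _
      have := integral_map (μ := μ) (hψ i).aemeasurable
        (f := fun x : UnitAddCircle => (fourier j x : ℂ)) hsm.aestronglyMeasurable
      rw [hψμ i] at this
      exact this.symm
    rw [sum_congr rfl h1]
    simp only [sum_const, card_range]
    rw [← Nat.cast_smul_eq_nsmul ℝ, smul_smul, inv_mul_cancel₀ hs'.ne', one_smul]
  rw [e1, ← smul_sub, ← sum_sub_distrib, norm_smul, norm_inv, Real.norm_eq_abs,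
    abs_of_pos hs', div_eq_inv_mul]
  refine mul_le_mul_of_nonneg_left ?_ (inv_nonneg.mpr hs'.le)
  have hint : ∀ (χ : UnitAddCircle → UnitAddCircle), Measurable χ →
      Integrable (fun x => (fourier j (χ x) : ℂ)) μ := by
    intro χ hχ
    exact Integrable.of_bound (hsm.comp_measurable hχ).aestronglyMeasurable 1
      (ae_of_all _ fun x => hb _)
  calc ‖∑ i ∈ range s, (∫ x, (fourier j (φ i x) : ℂ) ∂μ - ∫ x, (fourier j (ψ i x) : ℂ) ∂μ)‖
      ≤ ∑ i ∈ range s, (4 * Real.pi * |(j : ℝ)| / 2 ^ s) * 2 ^ i := by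
        refine (norm_sum_le _ _).trans (sum_le_sum fun i hi => ?_)
        rw [← integral_sub (hint _ (hφ i)) (hint _ (hψ i))]
        have h1 : ∀ x, ‖(fourier j (φ i x) : ℂ) - (fourier j (ψ i x) : ℂ)‖
            ≤ (4 * Real.pi * |(j : ℝ)| / 2 ^ s) * 2 ^ i := by
          intro x
          refine (norm_fourier_sub j _ _).trans ?_
          calc 2 * Real.pi * |(j : ℝ)| * ‖φ i x - ψ i x‖
              ≤ 2 * Real.pi * |(j : ℝ)| * (2 * 2 ^ i / 2 ^ s) := by
                gcongr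
                exact hclose i (mem_range.mp hi) x
            _ = _ := by ring
        have := norm_integral_le_of_norm_le_const (μ := μ) (ae_of_all _ h1)
        simpa using this
    _ = (4 * Real.pi * |(j : ℝ)| / 2 ^ s) * ∑ i ∈ range s, (2 : ℝ) ^ i := by rw [mul_sum]
    _ ≤ (4 * Real.pi * |(j : ℝ)| / 2 ^ s) * 2 ^ s := by
        gcongr
        exact sum_two_pow_le s
    _ = 4 * Real.pi * |(j : ℝ)| := by field_simp

end Pool.Agent.Dilates
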