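import Mathlib
import Pool.Agent.Dilates.Avg

set_option autoImplicit false

open Finset MeasureTheory Filter Topology
open scoped ENNReal

namespace Pool.Agent.Dilates

/-- The representative in `[0, 1)`. -/
noncomputable def rp (x : UnitAddCircle) : ℝ := (AddCircle.measurableEquivIco (1 : ℝ) 0 x : ℝ)

theorem measurable_rp : Measurable rp :=
  measurable_subtype_coe.comp (AddCircle.measurableEquivIco (1 : ℝ) 0).measurable

theorem rp_nonneg (x : UnitAddCircle) : 0 ≤ rp x :=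
  (AddCircle.measurableEquivIco (1 : ℝ) 0 x).2.1

theorem rp_lt_one (x : UnitAddCircle) : rp x < 1 := by
  have h : rp x < 0 + 1 := (AddCircle.measurableEquivIco (1 : ℝ) 0 x).2.2
  linarith

theorem coe_rp (x : UnitAddCircle) : ((rp x : ℝ) : UnitAddCircle) = x :=
  AddCircle.coe_equivIco (p := (1 : ℝ)) (a := 0)

/-- Replace a point by the periodic point with the same first `s` binary digits. -/
noncomputable def proj (s : ℕ) (x : UnitAddCircle) : UnitAddCircle :=
  (((⌊(2 : ℝ) ^ s * rp x⌋ : ℤ) / ((2 : ℝ) ^ s - 1) : ℝ) : UnitAddCircle)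

theorem measurable_proj (s : ℕ) : Measurable (proj s) := by
  unfold proj
  have h1 : Measurable fun x : UnitAddCircle => (⌊(2 : ℝ) ^ s * rp x⌋ : ℤ) :=
    Int.measurable_floor.comp (measurable_rp.const_mul _)
  have h2 : Measurable fun x : UnitAddCircle => ((⌊(2 : ℝ) ^ s * rp x⌋ : ℤ) : ℝ) :=
    (Measurable.of_discrete (f := fun n : ℤ => (n : ℝ))).comp h1
  have h3 := h2.div_const ((2 : ℝ) ^ s - 1)
  exact (AddCircle.measurable_mk' (a := (1 : ℝ))).comp h3

theorem proj_torsion (s : ℕ) (hs : 1 ≤ s) (x : UnitAddCircle) : (2 ^ s - 1) • proj s x = 0 := by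
  unfold proj
  rw [nsmul_coe]
  have h1 : (1 : ℝ) < 2 ^ s := one_lt_pow₀ (by norm_num) (by omega)
  have h2 : (((2 ^ s - 1 : ℕ) : ℕ) : ℝ) = 2 ^ s - 1 := by
    rw [Nat.cast_sub Nat.one_le_two_pow]; push_cast; ring
  rw [h2]
  have h3 : ((2 : ℝ) ^ s - 1) * ((⌊(2 : ℝ) ^ s * rp x⌋ : ℤ) / ((2 : ℝ) ^ s - 1))
      = ((⌊(2 : ℝ) ^ s * rp x⌋ : ℤ) : ℝ) := by
    field_simp [sub_ne_zero.mpr h1.ne']
  rw [h3, coe_int_eq_zero]

theorem two_pow_smul_of_torsion (s : ℕ) (z : UnitAddCircle)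
    (h : (2 ^ s - 1) • z = 0) : 2 ^ s • z = z := by
  have h1 : 2 ^ s • z = (2 ^ s - 1) • z + z := by
    rw [← succ_nsmul]
    congr 1
    have : 1 ≤ 2 ^ s := Nat.one_le_two_pow
    omega
  rw [h1, h, zero_add]

theorem inv_bound (s : ℕ) (hs : 1 ≤ s) : 1 / ((2 : ℝ) ^ s - 1) ≤ 2 / 2 ^ s := by
  have h1 : (2 : ℝ) ≤ 2 ^ s := by
    calc (2 : ℝ) = 2 ^ 1 := by norm_num
      _ ≤ 2 ^ s := pow_le_pow_right₀ (by norm_num) hs
  rw [div_le_div_iff₀ (by linarith) (by positivity)]
  linarith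

theorem proj_close (s : ℕ) (hs : 1 ≤ s) (x : UnitAddCircle) : ‖proj s x - x‖ ≤ 2 / 2 ^ s := by
  have h1 : (1 : ℝ) < 2 ^ s := one_lt_pow₀ (by norm_num) (by omega)
  have hpos : (0 : ℝ) < 2 ^ s - 1 := by linarith
  have h2 : proj s x - x
      = (((⌊(2 : ℝ) ^ s * rp x⌋ : ℤ) / ((2 : ℝ) ^ s - 1) - rp x : ℝ) : UnitAddCircle) := by
    rw [AddCircle.coe_sub, coe_rp]; rfl
  rw [h2]
  refine (norm_coe_le_abs _).trans ((?_ : _ ≤ 1 / ((2 : ℝ) ^ s - 1)).trans (inv_bound s hs))
  have hfl := Int.floor_le ((2 : ℝ) ^ s * rp x)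
  have hfl2 := Int.lt_floor_add_one ((2 : ℝ) ^ s * rp x)
  set n : ℝ := ((⌊(2 : ℝ) ^ s * rp x⌋ : ℤ) : ℝ) with hn
  have hr0 := rp_nonneg x
  have hr1 := rp_lt_one x
  have h3 : n / ((2 : ℝ) ^ s - 1) - rp x = (n - ((2 : ℝ) ^ s - 1) * rp x) / ((2 : ℝ) ^ s - 1) := by
    field_simp
  rw [h3, abs_div, abs_of_pos hpos]
  gcongr
  rw [abs_le]
  constructor <;> nlinarith

theorem map_two_pow (μ : Measure UnitAddCircle) (hμ : μ.map (fun x : UnitAddCircle => 2 • x) = μ)
    (i : ℕ) : μ.map (fun x : UnitAddCircle => 2 ^ i • x) = μ := by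
  induction i with
  | zero => simp
  | succ i ih =>
    have h1 : (fun x : UnitAddCircle => 2 ^ (i + 1) • x)
        = (fun x : UnitAddCircle => 2 • x) ∘ (fun x : UnitAddCircle => 2 ^ i • x) := by
      funext x
      simp only [Function.comp]
      rw [smul_smul]; congr 1; ring
    rw [h1, ← Measure.map_map continuous_two_smul.measurable
      (continuous_const_smul (2 ^ i)).measurable, ih, hμ]

/-- First density statement: invariant measures supported on odd torsion. -/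
theorem dens1 (μ : ProbabilityMeasure UnitAddCircle) (hμ : μ ∈ P2) (s : ℕ) (hs : 1 ≤ s) :
    ∃ ν : ProbabilityMeasure UnitAddCircle, ν ∈ P2 ∧
      (∫ x, ‖(2 ^ s - 1) • x‖ ∂(ν : Measure UnitAddCircle) = 0) ∧
      ∀ j : ℤ, ‖∫ x, (fourier j x : ℂ) ∂(ν : Measure UnitAddCircle)
        - ∫ x, (fourier j x : ℂ) ∂(μ : Measure UnitAddCircle)‖ ≤ 4 * Real.pi * |(j : ℝ)| / s := by
  set φ : ℕ → UnitAddCircle → UnitAddCircle := fun i x => 2 ^ i • proj s x with hφdef
  have hφ : ∀ i, Measurable (φ i) := fun i =>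
    (continuous_const_smul (2 ^ i)).measurable.comp (measurable_proj s)
  have hs0 : 0 < s := hs
  have := avg_prob (μ : Measure UnitAddCircle) s hs0 φ hφ
  refine ⟨⟨avg (μ : Measure UnitAddCircle) s φ, inferInstance⟩, ?_, ?_, ?_⟩
  · change (avg (μ : Measure UnitAddCircle) s φ).map (fun x : UnitAddCircle => 2 • x)
      = avg (μ : Measure UnitAddCircle) s φ
    apply avg_map_two _ s hs0
    · intro i
      rw [Measure.map_map continuous_two_smul.measurable (hφ i)]
      congr 1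
      funext x
      simp only [Function.comp, hφdef]
      rw [smul_smul]; congr 1; ring
    · congr 1
      funext x
      simp only [hφdef]
      rw [two_pow_smul_of_torsion s _ (proj_torsion s hs x)]; simp
  · change ∫ x, ‖(2 ^ s - 1) • x‖ ∂(avg (μ : Measure UnitAddCircle) s φ) = 0
    rw [avg_integral (μ : Measure UnitAddCircle) s φ hφ (fun x => ‖(2 ^ s - 1) • x‖)
      ((continuous_const_smul (2 ^ s - 1)).norm).stronglyMeasurable (1 / 2) ?_]
    · have : ∀ i ∈ range s, ∫ x, ‖(2 ^ s - 1) • φ i x‖ ∂(μ : Measure UnitAddCircle) = 0 := by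
        intro i _
        have h1 : ∀ x, (2 ^ s - 1) • φ i x = 0 := by
          intro x
          simp only [hφdef]
          rw [smul_comm, proj_torsion s hs x, smul_zero]
        simp [h1]
      rw [sum_congr rfl this]; simp
    · intro x
      rw [norm_norm]
      have := AddCircle.norm_le_half_period (p := (1 : ℝ)) (x := (2 ^ s - 1) • x) one_ne_zero
      simpa using this
  · intro j
    apply avg_fourier (μ : Measure UnitAddCircle) s hs0 φ
      (fun i x => 2 ^ i • x) hφ (fun i => (continuous_const_smul (2 ^ i)).measurable)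
      (fun i => map_two_pow _ hμ i)
    intro i _ x
    simp only [hφdef]
    rw [← smul_sub]
    refine (norm_nsmul_le).trans ?_
    have := proj_close s hs x
    push_cast
    calc (2 : ℝ) ^ i * ‖proj s x - x‖ ≤ 2 ^ i * (2 / 2 ^ s) := by gcongr
      _ = 2 * 2 ^ i / 2 ^ s := by ring

end Pool.Agent.Dilates
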