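import Mathlib
import Pool.Agent.Dilates.Dens

set_option autoImplicit false

open Finset MeasureTheory Filter Topology
open scoped ENNReal

namespace Pool.Agent.Dilates

/-- The point `1 / (2 ^ s - 1)` of the circle. -/
noncomputable def yp (s : ℕ) : UnitAddCircle := ((1 / ((2 : ℝ) ^ s - 1) : ℝ) : UnitAddCircle)

theorem yp_torsion (s : ℕ) (hs : 1 ≤ s) : (2 ^ s - 1) • yp s = 0 := by
  unfold yp
  rw [nsmul_coe]
  have h1 : (1 : ℝ) < 2 ^ s := one_lt_pow₀ (by norm_num) (by omega)
  have h2 : (((2 ^ s - 1 : ℕ) : ℕ) : ℝ) = 2 ^ s - 1 := by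
    rw [Nat.cast_sub Nat.one_le_two_pow]; push_cast; ring
  rw [h2]
  have h3 : ((2 : ℝ) ^ s - 1) * (1 / ((2 : ℝ) ^ s - 1)) = ((1 : ℤ) : ℝ) := by
    field_simp [sub_ne_zero.mpr h1.ne']
    simp
  rw [h3, coe_int_eq_zero]

theorem yp_inj (s : ℕ) (hs : 2 ≤ s) (i j : ℕ) (hi : i < s) (hj : j < s)
    (h : 2 ^ i • yp s = 2 ^ j • yp s) : i = j := by
  unfold yp at h
  rw [nsmul_coe, nsmul_coe] at h
  have h1 : (1 : ℝ) < 2 ^ s := one_lt_pow₀ (by norm_num) (by omega)
  have hpos : (0 : ℝ) < 2 ^ s - 1 := by linarith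
  have hmem : ∀ i < s, (((2 ^ i : ℕ) : ℝ) * (1 / ((2 : ℝ) ^ s - 1))) ∈ Set.Ico (0 : ℝ) (0 + 1) := by
    intro i hi
    constructor
    · positivity
    · push_cast
      rw [zero_add, mul_one_div, div_lt_one hpos]
      have h2 : (2 : ℝ) ^ i ≤ 2 ^ (s - 1) := pow_le_pow_right₀ (by norm_num) (by omega)
      have h3 : (2 : ℝ) ^ s = 2 * 2 ^ (s - 1) := by
        rw [← pow_succ']; congr 1; omega
      have h4 : (2 : ℝ) ≤ 2 ^ (s - 1) := by
        calc (2 : ℝ) = 2 ^ 1 := by norm_num
          _ ≤ 2 ^ (s - 1) := pow_le_pow_right₀ (by norm_num) (by omega)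
      linarith
  have h5 := (AddCircle.coe_eq_coe_iff_of_mem_Ico (hmem i hi) (hmem j hj)).mp h
  have h6 : ((2 ^ i : ℕ) : ℝ) = ((2 ^ j : ℕ) : ℝ) := by
    have hne : (1 / ((2 : ℝ) ^ s - 1)) ≠ 0 := by positivity
    exact mul_right_cancel₀ hne h5
  have h7 : 2 ^ i = 2 ^ j := by exact_mod_cast h6
  exact Nat.pow_right_injective le_rfl h7

/-- Second density statement: invariant measures with small atoms. -/
theorem dens2 (μ : ProbabilityMeasure UnitAddCircle) (hμ : μ ∈ P2) (s : ℕ) (hs : 2 ≤ s) :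
    ∃ ν : ProbabilityMeasure UnitAddCircle, ν ∈ P2 ∧
      (∀ z : UnitAddCircle, (ν : Measure UnitAddCircle) {z} ≤ (s : ℝ≥0∞)⁻¹) ∧
      ∀ j : ℤ, ‖∫ x, (fourier j x : ℂ) ∂(ν : Measure UnitAddCircle)
        - ∫ x, (fourier j x : ℂ) ∂(μ : Measure UnitAddCircle)‖ ≤ 4 * Real.pi * |(j : ℝ)| / s := by
  set φ : ℕ → UnitAddCircle → UnitAddCircle := fun i x => x + 2 ^ i • yp s with hφdef
  have hφ : ∀ i, Measurable (φ i) := fun i => measurable_id.add_const _
  have hs0 : 0 < s := by omega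
  have := avg_prob (μ : Measure UnitAddCircle) s hs0 φ hφ
  refine ⟨⟨avg (μ : Measure UnitAddCircle) s φ, inferInstance⟩, ?_, ?_, ?_⟩
  · change (avg (μ : Measure UnitAddCircle) s φ).map (fun x : UnitAddCircle => 2 • x)
      = avg (μ : Measure UnitAddCircle) s φ
    apply avg_map_two _ s hs0
    · intro i
      rw [Measure.map_map continuous_two_smul.measurable (hφ i)]
      have h1 : (fun x : UnitAddCircle => 2 • x) ∘ φ i
          = φ (i + 1) ∘ (fun x : UnitAddCircle => 2 • x) := by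
        funext x
        simp only [Function.comp, hφdef]
        rw [smul_add, smul_smul]; congr 2; ring
      rw [h1, ← Measure.map_map (hφ (i + 1)) continuous_two_smul.measurable]
      congr 1
    · congr 1
      funext x
      simp only [hφdef]
      rw [two_pow_smul_of_torsion s _ (yp_torsion s (by omega))]; simp
  · intro z
    change (avg (μ : Measure UnitAddCircle) s φ) {z} ≤ _
    unfold avg
    rw [Measure.smul_apply, Measure.finsetSum_apply, smul_eq_mul]
    have h1 : ∀ i ∈ range s, ((μ : Measure UnitAddCircle).map (φ i)) {z}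
        = (μ : Measure UnitAddCircle) {z - 2 ^ i • yp s} := by
      intro i _
      rw [Measure.map_apply (hφ i) (measurableSet_singleton z)]
      congr 1
      ext x
      simp only [Set.mem_preimage, Set.mem_singleton_iff, hφdef]
      exact eq_sub_iff_add_eq.symm
    rw [sum_congr rfl h1]
    have h2 : ∑ i ∈ range s, (μ : Measure UnitAddCircle) {z - 2 ^ i • yp s}
        = (μ : Measure UnitAddCircle) (⋃ i ∈ range s, {z - 2 ^ i • yp s}) := by
      rw [measure_biUnion_finset]
      · intro i hi j hj hij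
        simp only [Function.onFun, Set.disjoint_singleton]
        intro h
        apply hij
        exact yp_inj s hs i j (mem_range.mp hi) (mem_range.mp hj) (sub_right_injective h)
      · intro i _
        exact measurableSet_singleton _
    rw [h2]
    calc (s : ℝ≥0∞)⁻¹ * (μ : Measure UnitAddCircle) (⋃ i ∈ range s, {z - 2 ^ i • yp s})
        ≤ (s : ℝ≥0∞)⁻¹ * 1 := by gcongr; exact prob_le_one
      _ = _ := mul_one _
  · intro j
    apply avg_fourier (μ : Measure UnitAddCircle) s hs0 φ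
      (fun _ x => x) hφ (fun i => measurable_id)
      (fun i => Measure.map_id)
    intro i _ x
    simp only [hφdef]
    rw [add_sub_cancel_left]
    refine (norm_nsmul_le).trans ?_
    have h1 : ‖yp s‖ ≤ 2 / 2 ^ s := by
      unfold yp
      refine (norm_coe_le_abs _).trans ?_
      have h1 : (1 : ℝ) < 2 ^ s := one_lt_pow₀ (by norm_num) (by omega)
      rw [abs_of_pos (by
        have : (0 : ℝ) < 2 ^ s - 1 := by linarith
        positivity)]
      exact inv_bound s (by omega)
    push_cast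
    calc (2 : ℝ) ^ i * ‖yp s‖ ≤ 2 ^ i * (2 / 2 ^ s) := by gcongr
      _ = 2 * 2 ^ i / 2 ^ s := by ring

/-- The torsion points of order at most `Q`. -/
def tors (Q : ℕ) : Set UnitAddCircle := ⋃ q ∈ Icc 1 Q, {x : UnitAddCircle | q • x = 0}

theorem tors_finite (Q : ℕ) : (tors Q).Finite := by
  unfold tors
  refine Set.Finite.biUnion (Finset.finite_toSet _) ?_
  intro q hq
  have hq' : 0 < q := by
    have := (mem_Icc.mp (by exact_mod_cast hq)).1
    omega
  exact AddCircle.finite_torsion (1 : ℝ) hq'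

theorem mem_tors (Q q : ℕ) (hq0 : 0 < q) (hq : q ≤ Q) (b : ℤ) :
    (((b : ℝ) / q : ℝ) : UnitAddCircle) ∈ tors Q := by
  unfold tors
  simp only [Set.mem_iUnion, mem_Icc]
  refine ⟨q, ⟨hq0, hq⟩, ?_⟩
  change q • (((b : ℝ) / q : ℝ) : UnitAddCircle) = 0
  rw [nsmul_coe]
  have : (q : ℝ) * ((b : ℝ) / q) = b := by
    have : (q : ℝ) ≠ 0 := by exact_mod_cast hq0.ne'
    field_simp
  rw [this, coe_int_eq_zero]

end Pool.Agent.Dilates
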