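import Mathlib
import Pool.Agent.Dilates.Dens2

set_option autoImplicit false

open Finset MeasureTheory Filter Topology
open scoped ENNReal

namespace Pool.Agent.Dilates

theorem tendsto_of_bound (μ : ProbabilityMeasure UnitAddCircle)
    (ν : ℕ → ProbabilityMeasure UnitAddCircle) (r : ℕ → ℕ) (hr : Tendsto r atTop atTop)
    (h : ∀ n, ∀ j : ℤ, ‖∫ x, (fourier j x : ℂ) ∂(ν n : Measure UnitAddCircle)
        - ∫ x, (fourier j x : ℂ) ∂(μ : Measure UnitAddCircle)‖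
          ≤ 4 * Real.pi * |(j : ℝ)| / (r n : ℕ)) :
    Tendsto ν atTop (𝓝 μ) := by
  apply tendsto_of_fourier
  intro j
  rw [tendsto_iff_norm_sub_tendsto_zero]
  refine squeeze_zero (fun n => norm_nonneg _) (fun n => h n j) ?_
  have h1 : Tendsto (fun n => ((r n : ℕ) : ℝ)) atTop atTop :=
    tendsto_natCast_atTop_atTop.comp hr
  exact h1.const_div_atTop _

theorem key_prop (k : ℤ) (hk : Odd k) (ε : ℝ) (hε : 0 < ε)
    (W : Set (ProbabilityMeasure UnitAddCircle)) (hW : IsOpen W) (hne : (W ∩ P2).Nonempty)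
    (η : ℝ) (hη : 0 < η) :
    ∃ U : Set (ProbabilityMeasure UnitAddCircle), IsOpen U ∧ U ⊆ W ∧ (U ∩ P2).Nonempty ∧
      ∃ m₀ : ℕ, ∀ m ≥ m₀, ∃ B : Finset ℕ, (B.card : ℝ) ≤ 2 ^ m * η ∧
        ∀ c : ℕ, c < 2 ^ m → c ∉ B → ∀ μ ∈ U ∩ P2,
          ‖∫ x, (fourier (k * c) x : ℂ) ∂(μ : Measure UnitAddCircle)‖ ≤ 3 * ε := by
  obtain ⟨δ, hδ, hcore⟩ := core k hk ε hε
  obtain ⟨μ, hμW, hμ⟩ := hne
  -- first approximation
  choose ν hν1 hν2 hν3 using fun n : ℕ => dens1 μ hμ (n + 1) (by omega)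
  have hνlim : Tendsto ν atTop (𝓝 μ) :=
    tendsto_of_bound μ ν (fun n => n + 1) (tendsto_add_atTop_nat 1) (fun n j => hν3 n j)
  obtain ⟨n, hn⟩ := (hνlim.eventually (hW.mem_nhds hμW)).exists
  set K : ℕ := 2 ^ (n + 1) - 1 with hKdef
  have hK : Odd K := by
    have h1 : Even (2 ^ (n + 1)) := by
      rw [pow_succ]; exact even_two.mul_left _
    exact Nat.Even.sub_odd Nat.one_le_two_pow h1 odd_one
  obtain ⟨L₁, hL₁⟩ := hcore K hK η hη
  set g : C(UnitAddCircle, ℝ) := ⟨fun x => ‖K • x‖, (continuous_const_smul K).norm⟩ with hg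
  set W' : Set (ProbabilityMeasure UnitAddCircle) :=
    W ∩ {μ | ∫ x, ‖K • x‖ ∂(μ : Measure UnitAddCircle) < δ * ε} with hW'def
  have hW' : IsOpen W' := by
    apply hW.inter
    exact isOpen_lt (ProbabilityMeasure.continuous_integral_continuousMap g) continuous_const
  have hνW' : ν n ∈ W' := by
    refine ⟨hn, ?_⟩
    change ∫ x, ‖K • x‖ ∂(ν n : Measure UnitAddCircle) < δ * ε
    rw [hν2 n]; positivity
  -- second approximation
  set F : Set UnitAddCircle := tors (2 ^ L₁) with hF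
  have hFfin : F.Finite := tors_finite _
  choose ξ hξ1 hξ2 hξ3 using fun n' : ℕ => dens2 (ν n) (hν1 n) (n' + 2) (by omega)
  have hξlim : Tendsto ξ atTop (𝓝 (ν n)) :=
    tendsto_of_bound (ν n) ξ (fun n' => n' + 2) (tendsto_add_atTop_nat 2) (fun n' j => hξ3 n' j)
  have hev1 := hξlim.eventually (hW'.mem_nhds hνW')
  have hev2 : ∀ᶠ n' : ℕ in atTop, (hFfin.toFinset.card : ℝ) / ((n' + 2 : ℕ) : ℝ) < ε := by
    have h1 : Tendsto (fun n' : ℕ => ((n' + 2 : ℕ) : ℝ)) atTop atTop :=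
      tendsto_natCast_atTop_atTop.comp (tendsto_add_atTop_nat 2)
    exact (h1.const_div_atTop _).eventually (gt_mem_nhds hε)
  obtain ⟨n', hn'1, hn'2⟩ := (hev1.and hev2).exists
  set ζ := ξ n' with hζ
  have hζF : (ζ : Measure UnitAddCircle) F < ENNReal.ofReal ε := by
    have h1 : F = ⋃ z ∈ hFfin.toFinset, {z} := by
      ext x; simp
    have h2 : (ζ : Measure UnitAddCircle) F
        ≤ ∑ z ∈ hFfin.toFinset, (ζ : Measure UnitAddCircle) {z} := by
      conv_lhs => rw [h1]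
      exact measure_biUnion_finset_le _ _
    have h3 : ∑ z ∈ hFfin.toFinset, (ζ : Measure UnitAddCircle) {z}
        ≤ ∑ z ∈ hFfin.toFinset, ((n' + 2 : ℕ) : ℝ≥0∞)⁻¹ :=
      sum_le_sum fun z _ => hξ2 n' z
    refine (h2.trans h3).trans_lt ?_
    rw [sum_const, nsmul_eq_mul, ← div_eq_mul_inv]
    have h4 : ((hFfin.toFinset.card : ℕ) : ℝ≥0∞) / ((n' + 2 : ℕ) : ℝ≥0∞)
        = ENNReal.ofReal ((hFfin.toFinset.card : ℝ) / ((n' + 2 : ℕ) : ℝ)) := by
      rw [ENNReal.ofReal_div_of_pos (by positivity), ENNReal.ofReal_natCast,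
        ENNReal.ofReal_natCast]
    rw [h4]
    exact (ENNReal.ofReal_lt_ofReal_iff hε).mpr hn'2
  -- thickening
  have hlim := tendsto_measure_cthickening_of_isCompact (μ := (ζ : Measure UnitAddCircle))
    hFfin.isCompact
  have hpow : Tendsto (fun m : ℕ => (1 : ℝ) / 2 ^ m) atTop (𝓝 0) := by
    have := tendsto_pow_atTop_nhds_zero_of_lt_one (r := (1 / 2 : ℝ)) (by norm_num) (by norm_num)
    simpa [one_div] using this
  obtain ⟨m₀, hm₀⟩ := ((hlim.comp hpow).eventually (gt_mem_nhds hζF)).exists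
  simp only [Function.comp] at hm₀
  set C : Set UnitAddCircle := Metric.cthickening (1 / 2 ^ m₀) F with hC
  have hCclosed : IsClosed C := Metric.isClosed_cthickening
  have hCε : (ζ : Measure UnitAddCircle).real C < ε := by
    rw [Measure.real, ← ENNReal.ofReal_lt_ofReal_iff hε, ENNReal.ofReal_toReal (by finiteness)]
    exact hm₀
  set e' : ℝ := ε - (ζ : Measure UnitAddCircle).real C with he'
  have he'pos : 0 < e' := by rw [he']; linarith
  have hnhd := ProbabilityMeasure.toMeasure_add_pos_gt_mem_nhds ζ hCclosed.isOpen_compl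
    (ε := ENNReal.ofReal e') (by simpa using he'pos)
  obtain ⟨U₁, hU₁sub, hU₁open, hζU₁⟩ := mem_nhds_iff.mp hnhd
  refine ⟨W' ∩ U₁, hW'.inter hU₁open, fun x hx => hx.1.1, ⟨ζ, ⟨hn'1, hζU₁⟩, hξ1 n'⟩, m₀, ?_⟩
  intro m hm
  obtain ⟨B, hB1, hB2⟩ := hL₁ m
  refine ⟨B, hB1, ?_⟩
  intro c hc hcB κ hκ
  obtain ⟨⟨hκW', hκU₁⟩, hκP⟩ := hκ
  have hNsub : ∀ x : ℝ, (∃ q : ℕ, 0 < q ∧ q ≤ 2 ^ L₁ ∧ ∃ b : ℤ, |x - b / q| ≤ 1 / 2 ^ m) →
      ((x : ℝ) : UnitAddCircle) ∈ C := by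
    rintro x ⟨q, hq0, hq, b, hb⟩
    refine Metric.mem_cthickening_of_dist_le _ (((b : ℝ) / q : ℝ) : UnitAddCircle) _ _
      (mem_tors _ q hq0 hq b) ?_
    rw [dist_eq_norm, ← AddCircle.coe_sub]
    refine (norm_coe_le_abs _).trans (hb.trans ?_)
    have : (2 : ℝ) ^ m₀ ≤ 2 ^ m := pow_le_pow_right₀ (by norm_num) hm
    gcongr
  have hkb := key_bound k c m L₁ K ε δ hε.le hδ (hB2 c hc hcB) κ hκP C hCclosed.measurableSet
    hNsub
  refine hkb.trans ?_
  have h1 : δ⁻¹ * ∫ x, ‖K • x‖ ∂(κ : Measure UnitAddCircle) ≤ ε := by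
    have h2 : ∫ x, ‖K • x‖ ∂(κ : Measure UnitAddCircle) < δ * ε := hκW'.2
    rw [inv_mul_le_iff₀ hδ]
    exact h2.le
  have h3 : (κ : Measure UnitAddCircle).real C ≤ ε := by
    have h4 : (ζ : Measure UnitAddCircle) Cᶜ
        < (κ : Measure UnitAddCircle) Cᶜ + ENNReal.ofReal e' := hU₁sub hκU₁
    have h5 : (ζ : Measure UnitAddCircle).real Cᶜ
        ≤ (κ : Measure UnitAddCircle).real Cᶜ + e' := by
      have h6 := ENNReal.toReal_mono (by finiteness) h4.le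
      rw [ENNReal.toReal_add (by finiteness) (by finiteness),
        ENNReal.toReal_ofReal he'pos.le] at h6
      exact h6
    rw [probReal_compl_eq_one_sub hCclosed.measurableSet,
      probReal_compl_eq_one_sub hCclosed.measurableSet] at h5
    rw [he'] at h5
    linarith
  linarith

end Pool.Agent.Dilates
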