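import Mathlib
import Pool.Agent.Dilates.KeyProp

set_option autoImplicit false

open Finset MeasureTheory Filter Topology TopologicalSpace
open scoped ENNReal

namespace Pool.Agent.Dilates

theorem P2_nonempty : P2.Nonempty := by
  refine ⟨⟨Measure.dirac 0, inferInstance⟩, ?_⟩
  change (Measure.dirac (0 : UnitAddCircle)).map (fun x : UnitAddCircle => 2 • x)
    = Measure.dirac 0
  rw [Measure.map_dirac' continuous_two_smul.measurable]
  simp

theorem P2_isClosed : IsClosed P2 := by
  have h1 : P2 = {ν : ProbabilityMeasure UnitAddCircle |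
      ν.map (f := fun x : UnitAddCircle => 2 • x) continuous_two_smul.measurable.aemeasurable
        = ν} := by
    ext ν
    constructor
    · intro h
      apply Subtype.ext
      exact h
    · intro h
      exact congrArg (fun ν : ProbabilityMeasure UnitAddCircle => (ν : Measure UnitAddCircle)) h
  rw [h1]
  exact isClosed_eq (ProbabilityMeasure.continuous_map continuous_two_smul) continuous_id

theorem secondCountable : SecondCountableTopology (ProbabilityMeasure UnitAddCircle) := by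
  let _ := TopologicalSpace.metrizableSpaceMetric (ProbabilityMeasure UnitAddCircle)
  infer_instance

theorem generic_seq : ∃ c : ℕ → ℕ, (∀ n, 2 ^ n ≤ c n ∧ c n < 2 ^ (n + 1)) ∧
    ∀ k : ℤ, Odd k → ∀ j : ℕ, ∀ V : Set (ProbabilityMeasure UnitAddCircle), IsOpen V →
      (V ∩ P2).Nonempty → ∃ U : Set (ProbabilityMeasure UnitAddCircle), IsOpen U ∧ U ⊆ V ∧
        (U ∩ P2).Nonempty ∧ ∃ n₀ : ℕ, ∀ n ≥ n₀, ∀ μ ∈ U ∩ P2,
          ‖∫ x, (fourier (k * c n) x : ℂ) ∂(μ : Measure UnitAddCircle)‖
            ≤ 3 * (1 / ((j : ℝ) + 1)) := by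
  have := secondCountable
  set b := countableBasis (ProbabilityMeasure UnitAddCircle) with hb
  have hbc : b.Countable := countable_countableBasis _
  let ι : Type := {W : Set (ProbabilityMeasure UnitAddCircle) // W ∈ b ∧ (W ∩ P2).Nonempty}
    × {k : ℤ // Odd k} × ℕ
  have hsub : ∀ V : Set (ProbabilityMeasure UnitAddCircle), IsOpen V → (V ∩ P2).Nonempty →
      ∃ W ∈ b, W ⊆ V ∧ (W ∩ P2).Nonempty := by
    rintro V hV ⟨μ, hμV, hμ⟩
    obtain ⟨W, hWb, hμW, hWV⟩ := (isBasis_countableBasis _).exists_subset_of_mem_open hμV hV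
    exact ⟨W, hWb, hWV, μ, hμW, hμ⟩
  have hcount : Countable ι := by
    have h1 : Countable {W : Set (ProbabilityMeasure UnitAddCircle) //
        W ∈ b ∧ (W ∩ P2).Nonempty} :=
      (hbc.mono (fun W hW => hW.1 : {W | W ∈ b ∧ (W ∩ P2).Nonempty} ⊆ b)).to_subtype
    infer_instance
  have hnonempty : Nonempty ι := by
    obtain ⟨W, hWb, -, hW⟩ := hsub Set.univ isOpen_univ (by simpa using P2_nonempty)
    exact ⟨⟨⟨W, hWb, hW⟩, ⟨1, odd_one⟩, 0⟩⟩
  obtain ⟨f, hf⟩ := exists_surjective_nat ι
  choose U hUo hUW hUne m₀ B hBcard hB using fun t : ℕ =>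
    key_prop (f t).2.1.1 (f t).2.1.2 (1 / (((f t).2.2 : ℝ) + 1)) (by positivity) (f t).1.1
      ((isBasis_countableBasis _).isOpen (f t).1.2.1) (f t).1.2.2 ((1 / 2 : ℝ) ^ (t + 3))
      (by positivity)
  set A : ℕ → Finset ℕ := fun n => (range (n + 1)).biUnion fun t =>
    if h : m₀ t ≤ n + 1 then B t (n + 1) h else ∅ with hA
  have hAcard : ∀ n, ((A n).card : ℝ) < 2 ^ n := by
    intro n
    have h1 : (A n).card ≤ ∑ t ∈ range (n + 1),
        (if h : m₀ t ≤ n + 1 then B t (n + 1) h else ∅).card := card_biUnion_le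
    have h2 : ∀ t ∈ range (n + 1),
        ((((if h : m₀ t ≤ n + 1 then B t (n + 1) h else ∅).card : ℕ)) : ℝ)
        ≤ 2 ^ (n + 1) * (1 / 2 : ℝ) ^ (t + 3) := by
      intro t _
      split_ifs with h
      · exact hBcard t (n + 1) h
      · simp only [card_empty, Nat.cast_zero]; positivity
    have h3 : ((A n).card : ℝ) ≤ ∑ t ∈ range (n + 1),
        ((((if h : m₀ t ≤ n + 1 then B t (n + 1) h else ∅).card : ℕ)) : ℝ) := by
      exact_mod_cast h1
    have h4 : ∑ t ∈ range (n + 1), (2 : ℝ) ^ (n + 1) * (1 / 2 : ℝ) ^ (t + 3)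
        ≤ 2 ^ n / 2 := by
      have h5 : ∀ t ∈ range (n + 1), (2 : ℝ) ^ (n + 1) * (1 / 2 : ℝ) ^ (t + 3)
          = (2 ^ n / 4) * (1 / 2 : ℝ) ^ t := by
        intro t _
        rw [pow_succ, pow_add]; ring
      rw [sum_congr rfl h5, ← mul_sum]
      have h6 : ∑ t ∈ range (n + 1), (1 / 2 : ℝ) ^ t ≤ 2 := by
        rw [geom_sum_eq (by norm_num)]
        have : (0 : ℝ) < (1 / 2) ^ (n + 1) := by positivity
        rw [div_le_iff_of_neg (by norm_num)]
        linarith
      have h7 : (0 : ℝ) < 2 ^ n / 4 := by positivity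
      nlinarith
    have h8 : (0 : ℝ) < 2 ^ n := by positivity
    linarith [h3.trans (sum_le_sum h2)]
  have hexists : ∀ n, ∃ c : ℕ, c ∈ Ico (2 ^ n) (2 ^ (n + 1)) ∧ c ∉ A n := by
    intro n
    apply exists_mem_notMem_of_card_lt_card
    rw [Nat.card_Ico]
    have h1 : 2 ^ (n + 1) - 2 ^ n = 2 ^ n := by
      rw [pow_succ]; omega
    rw [h1]
    exact_mod_cast hAcard n
  choose c hc1 hc2 using hexists
  refine ⟨c, fun n => mem_Ico.mp (hc1 n), ?_⟩
  intro k hk j V hV hVne
  obtain ⟨W, hWb, hWV, hWne⟩ := hsub V hV hVne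
  obtain ⟨t, ht⟩ := hf ⟨⟨W, hWb, hWne⟩, ⟨k, hk⟩, j⟩
  have e1 : (f t).1.1 = W := by rw [ht]
  have e2 : (f t).2.1.1 = k := by rw [ht]
  have e3 : (f t).2.2 = j := by rw [ht]
  refine ⟨U t, hUo t, ?_, hUne t, max t (m₀ t), ?_⟩
  · exact (hUW t).trans (by rw [e1]; exact hWV)
  · intro n hn μ hμ
    have hn1 : t ≤ n := (le_max_left _ _).trans hn
    have hn2 : m₀ t ≤ n + 1 := ((le_max_right _ _).trans hn).trans (Nat.le_succ n)
    have hnot : c n ∉ B t (n + 1) hn2 := by
      intro hmem
      apply hc2 n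
      simp only [hA, mem_biUnion, mem_range]
      refine ⟨t, by omega, ?_⟩
      rw [dif_pos hn2]; exact hmem
    have := hB t (n + 1) hn2 (c n) (mem_Ico.mp (hc1 n)).2 hnot μ hμ
    rw [e2, e3] at this
    exact this

theorem integral_fourier_volume (j : ℤ) (hj : j ≠ 0) :
    ∫ x : UnitAddCircle, (fourier j x : ℂ) = 0 :=
  integral_eq_zero_of_add_right_eq_neg (μ := (volume : Measure UnitAddCircle))
    (fourier_add_half_inv_index hj one_pos)

instance prob_volume : IsProbabilityMeasure (volume : Measure UnitAddCircle) :=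
  ⟨UnitAddCircle.measure_univ⟩

theorem tendsto_all (c : ℕ → ℕ) (μ : ProbabilityMeasure UnitAddCircle) (hμ : μ ∈ P2)
    (h : ∀ k : ℤ, Odd k → Tendsto (fun n => ∫ x, (fourier (k * c n) x : ℂ)
      ∂(μ : Measure UnitAddCircle)) atTop (𝓝 0)) (g : C(UnitAddCircle, ℝ)) :
    Tendsto (fun n : ℕ => ∫ x, g (((c n : ℕ) : ℤ) • x) ∂(μ : Measure UnitAddCircle))
      atTop (𝓝 (∫ x, g x)) := by
  have hcm : ∀ n, Measurable (fun x : UnitAddCircle => ((c n : ℕ) : ℤ) • x) := fun n =>
    (continuous_const_smul _).measurable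
  have hprob : ∀ n, IsProbabilityMeasure
      ((μ : Measure UnitAddCircle).map (fun x : UnitAddCircle => ((c n : ℕ) : ℤ) • x)) := fun n =>
    Measure.isProbabilityMeasure_map (hcm n).aemeasurable
  have hfour : ∀ j : ℤ, Tendsto (fun n => ∫ x, (fourier j x : ℂ)
      ∂((μ : Measure UnitAddCircle).map (fun x : UnitAddCircle => ((c n : ℕ) : ℤ) • x))) atTop
      (𝓝 (∫ x : UnitAddCircle, (fourier j x : ℂ))) := by
    intro j
    have hint : ∀ n, ∫ x, (fourier j x : ℂ)
        ∂((μ : Measure UnitAddCircle).map (fun x : UnitAddCircle => ((c n : ℕ) : ℤ) • x))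
        = ∫ x, (fourier (j * c n) x : ℂ) ∂(μ : Measure UnitAddCircle) := by
      intro n
      rw [integral_map (hcm n).aemeasurable
        (map_continuous (fourier j)).stronglyMeasurable.aestronglyMeasurable]
      refine integral_congr_ae (ae_of_all _ fun x => ?_)
      simp only [fourier_apply, smul_smul]
    simp only [hint]
    by_cases hj : j = 0
    · subst hj
      simp
    · rw [integral_fourier_volume j hj]
      -- write j = 2 ^ a * k with k odd
      obtain ⟨a, k, hk, hjk⟩ : ∃ (a : ℕ) (k : ℤ), Odd k ∧ j = 2 ^ a * k := by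
        have hfin : FiniteMultiplicity (2 : ℤ) j := by
          rw [Int.finiteMultiplicity_iff]; exact ⟨by norm_num, hj⟩
        obtain ⟨k, hjk, hk⟩ := hfin.exists_eq_pow_mul_and_not_dvd
        exact ⟨_, k, Int.not_even_iff_odd.mp (by rwa [even_iff_two_dvd]), hjk⟩
      refine (h k hk).congr fun n => ?_
      have h1 := integral_map (μ := (μ : Measure UnitAddCircle))
        (φ := fun x : UnitAddCircle => 2 ^ a • x)
        (continuous_const_smul (2 ^ a)).measurable.aemeasurable
        (f := fun x : UnitAddCircle => (fourier (k * c n) x : ℂ))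
        (map_continuous (fourier (k * c n))).stronglyMeasurable.aestronglyMeasurable
      rw [map_two_pow _ hμ a] at h1
      rw [h1]
      refine integral_congr_ae (ae_of_all _ fun x => ?_)
      simp only [fourier_apply]
      congr 2
      rw [hjk, ← natCast_zsmul x (2 ^ a), smul_smul]
      congr 1
      push_cast
      ring
  have hg := tendsto_integral_of_fourier atTop
    (fun n => (μ : Measure UnitAddCircle).map (fun x : UnitAddCircle => ((c n : ℕ) : ℤ) • x))
    (volume : Measure UnitAddCircle) hfour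
    ⟨fun x => (g x : ℂ), Complex.continuous_ofReal.comp g.continuous⟩
  have e1 : ∀ ν : Measure UnitAddCircle, ∫ x, ((g x : ℝ) : ℂ) ∂ν = ((∫ x, g x ∂ν : ℝ) : ℂ) :=
    fun ν => integral_ofReal
  simp only [ContinuousMap.coe_mk, e1] at hg
  have hg2 := (Complex.continuous_re.tendsto _).comp hg
  simp only [Function.comp_def, Complex.ofReal_re] at hg2
  refine hg2.congr fun n => ?_
  exact integral_map (hcm n).aemeasurable g.continuous.aestronglyMeasurable

end Pool.Agent.Dilates
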